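import Pool.Agent.W59S.US.Wedge

set_option autoImplicit false

/-!
Isomorphic complexes, and the countable set of the finite contractible complexes.
-/

namespace Pool.Agent.W59S.US

open Function
open Pool.Agent.R655.LI

/-- isomorphisms of complexes -/
structure Iso (L L' : Cx) where
  v : L.V ≃ L'.V
  c : L.R ≃ L'.R
  comm : ∀ j, FreeGroup.map v (L.r j) = L'.r (c j)

section
variable {L L' : Cx}

/-- an isomorphism is an inclusion of a subcomplex -/
def Iso.sub (I : Iso L L') : Sub L L' := ⟨I.v.toEmbedding, I.c.toEmbedding, I.comm⟩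

/-- the inverse isomorphism -/
def Iso.symm (I : Iso L L') : Iso L' L where
  v := I.v.symm
  c := I.c.symm
  comm j := by
    have h := I.comm (I.c.symm j)
    rw [I.c.apply_symm_apply] at h
    rw [← h, FreeGroup.map.comp, I.v.symm_comp_self, FreeGroup.map.id]

lemma Iso.map_symm (I : Iso L L') (x : L'.Pi) : I.sub.map (I.symm.sub.map x) = x := by
  have : I.sub.map.comp I.symm.sub.map = MonoidHom.id _ := by
    refine PresentedGroup.ext fun v => ?_
    rw [MonoidHom.comp_apply, map_of, map_of]
    exact congrArg PresentedGroup.of (I.v.apply_symm_apply v)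
  exact DFunLike.congr_fun this x

lemma Iso.symm_map (I : Iso L L') (x : L.Pi) : I.symm.sub.map (I.sub.map x) = x := by
  have : I.symm.sub.map.comp I.sub.map = MonoidHom.id _ := by
    refine PresentedGroup.ext fun v => ?_
    rw [MonoidHom.comp_apply, map_of, map_of]
    exact congrArg PresentedGroup.of (I.v.symm_apply_apply v)
  exact DFunLike.congr_fun this x

lemma Iso.inj (I : Iso L L') : Injective I.sub.map :=
  LeftInverse.injective I.symm_map

lemma Iso.bdry (I : Iso L L') : L'.bdry = (Finsupp.lmapDomain ℤ ℤ I.v).comp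
    (L.bdry.comp (Finsupp.lmapDomain ℤ ℤ I.c.symm)) := by
  refine Finsupp.lhom_ext fun j z => ?_
  simp only [LinearMap.comp_apply, Cx.bdry, Finsupp.lmapDomain_apply, Finsupp.mapDomain_single,
    Finsupp.linearCombination_single, Finsupp.mapDomain_smul]
  rw [← expSum_map, I.comm, I.c.apply_symm_apply]

lemma Iso.contractible (I : Iso L L') (h : L.Contractible) : L'.Contractible := by
  refine ⟨fun x => ?_, ?_⟩
  · rw [← I.map_symm x, h.pi_eq_one (I.symm.sub.map x), map_one]
  · rw [I.bdry]
    exact (Finsupp.mapDomain_injective I.v.injective).comp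
      (h.bdry_inj.comp (Finsupp.mapDomain_injective I.c.symm.injective))

/-- the isomorphism of the complexes without a 2-cell -/
def Iso.del (I : Iso L L') (e : L.R) : Iso (L.del e) (L'.del (I.c e)) where
  v := I.v
  c := I.c.subtypeEquiv fun k => (not_congr (I.c.apply_eq_iff_eq (x := k) (y := e))).symm
  comm j := I.comm j.1

lemma Iso.oneCell (I : Iso L L') {e : L.R} (h : OneCell L e) : OneCell L' (I.c e) := by
  obtain ⟨h1, t, ht⟩ := h
  refine ⟨I.contractible h1, I.v t, ?_⟩
  rw [← I.comm, ht, FreeGroup.map.of]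

end

/-- the complex with the 1-cells `1, ..., a` and the 2-cells `1, ..., b` -/
def cxOf (a b : ℕ) (r : Fin b → FreeGroup (Fin a)) : Cx := ⟨Fin a, Fin b, r⟩

lemma cxOf_fin (a b : ℕ) (r : Fin b → FreeGroup (Fin a)) : (cxOf a b r).IsFin :=
  ⟨inferInstanceAs (Finite (Fin a)), inferInstanceAs (Finite (Fin b))⟩

/-- finite contractible complexes with a 2-cell attached along a 1-cell -/
def Code : Type :=
  {x : Σ a b : ℕ, (Fin b → FreeGroup (Fin a)) × Fin b //
    OneCell (cxOf x.1 x.2.1 x.2.2.1) x.2.2.2}

/-- the complex without the 2-cell -/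
abbrev Code.K (c : Code) : Cx := (cxOf c.1.1 c.1.2.1 c.1.2.2.1).del c.1.2.2.2

instance countable_free (A : Type) [Countable A] : Countable (FreeGroup A) :=
  (Quot.mk_surjective (r := FreeGroup.Red.Step)).countable

instance : Countable Code := Subtype.countable

lemma exists_code (L : Cx) (e : L.R) (h : OneCell L e) (hf : L.IsFin) :
    ∃ (c : Code) (f : Sub (L.del e) c.K), Injective f.map := by
  have := hf.1
  have := hf.2
  let I : Iso L (cxOf (Nat.card L.V) (Nat.card L.R)
      fun j => FreeGroup.map (Finite.equivFin L.V) (L.r ((Finite.equivFin L.R).symm j))) :=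
    { v := Finite.equivFin L.V
      c := Finite.equivFin L.R
      comm := fun j => by
        change _ = FreeGroup.map (Finite.equivFin L.V)
          (L.r ((Finite.equivFin L.R).symm ((Finite.equivFin L.R) j)))
        rw [Equiv.symm_apply_apply]
        rfl }
  exact ⟨⟨⟨Nat.card L.V, Nat.card L.R, _, I.c e⟩, I.oneCell h⟩, (I.del e).sub, (I.del e).inj⟩

/-- the disc -/
def disc : Cx := cxOf 1 1 fun _ => FreeGroup.of 0

lemma lc_inj : Injective (Finsupp.linearCombination ℤ
    fun _ : Fin 1 => (expSum (Fin 1) (FreeGroup.of 0)).toAdd) := by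
  simp only [expSum_of]
  intro x y hxy
  refine Finsupp.ext fun j => ?_
  have hj : j = 0 := Subsingleton.elim j 0
  have h := DFunLike.congr_fun hxy 0
  subst hj
  simpa [Finsupp.linearCombination_apply, Finsupp.sum_fintype] using h

lemma disc_contractible : disc.Contractible := by
  refine ⟨pi_trivial fun v => ?_, ?_⟩
  · have : (FreeGroup.of v : FreeGroup (Fin 1)) ∈ Set.range disc.r := by
      refine ⟨(0 : Fin 1), ?_⟩
      have hv : v = (0 : Fin 1) := Subsingleton.elim (α := Fin 1) v 0
      rw [hv]
      rfl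
    exact PresentedGroup.one_of_mem this
  · exact lc_inj

lemma disc_one : OneCell disc (0 : Fin 1) := ⟨disc_contractible, (0 : Fin 1), rfl⟩

instance : Nonempty Code := ⟨⟨⟨1, 1, (fun _ => FreeGroup.of 0), 0⟩, disc_one⟩⟩

end Pool.Agent.W59S.US
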