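import Mathlib.GroupTheory.Commutator.Basic
import Mathlib.GroupTheory.Finiteness
import Mathlib.GroupTheory.Subgroup.Simple
import Mathlib.Tactic

set_option autoImplicit false

/-!
Simple groups: the zero-one law for finitely generated perfect subgroups, and a sequence of groups
whose direct limit is simple.
-/

namespace Pool.Agent.W59S.US

open Function
open scoped commutatorElement

/-- `M` is finitely generated and perfect. -/
def FP {G : Type} [Group G] (M : Subgroup G) : Prop := M.FG ∧ ⁅M, M⁆ = M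

section
variable {G : Type} [Group G]

lemma FP.bot : FP (⊥ : Subgroup G) := ⟨⟨∅, by simp⟩, by simp⟩

lemma FP.sup {M N : Subgroup G} (h : FP M) (h' : FP N) : FP (M ⊔ N) := by
  refine ⟨?_, le_antisymm ?_ ?_⟩
  · classical
    obtain ⟨S, hS⟩ := h.1
    obtain ⟨T, hT⟩ := h'.1
    refine ⟨S ∪ T, ?_⟩
    rw [Finset.coe_union, Subgroup.closure_union, hS, hT]
  · exact Subgroup.commutator_le_self _
  · refine sup_le ?_ ?_
    · conv_lhs => rw [← h.2]
      exact Subgroup.commutator_mono le_sup_left le_sup_left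
    · conv_lhs => rw [← h'.2]
      exact Subgroup.commutator_mono le_sup_right le_sup_right

lemma FP.map {G' : Type} [Group G'] (f : G →* G') {M : Subgroup G} (h : FP M) : FP (M.map f) := by
  refine ⟨?_, by rw [← Subgroup.map_commutator, h.2]⟩
  classical
  obtain ⟨S, hS⟩ := h.1
  refine ⟨S.image f, ?_⟩
  rw [Finset.coe_image, ← MonoidHom.map_closure, hS]

/-- the union of the finitely generated perfect subgroups -/
def fpRad (G : Type) [Group G] : Subgroup G where
  carrier := {x | ∃ M : Subgroup G, FP M ∧ x ∈ M}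
  one_mem' := ⟨⊥, FP.bot, Subgroup.one_mem _⟩
  mul_mem' := by
    rintro a b ⟨M, hM, ha⟩ ⟨N, hN, hb⟩
    exact ⟨M ⊔ N, hM.sup hN, mul_mem (Subgroup.mem_sup_left ha) (Subgroup.mem_sup_right hb)⟩
  inv_mem' := by
    rintro a ⟨M, hM, ha⟩
    exact ⟨M, hM, inv_mem ha⟩

lemma mem_fpRad {x : G} : x ∈ fpRad G ↔ ∃ M : Subgroup G, FP M ∧ x ∈ M := Iff.rfl

instance : (fpRad G).Normal where
  conj_mem := by
    rintro x ⟨M, hM, hx⟩ g
    exact ⟨M.map (MulAut.conj g).toMonoidHom, hM.map _, x, hx, rfl⟩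

lemma fg_le (h : fpRad G = ⊤) (H : Subgroup G) (hH : H.FG) : ∃ M : Subgroup G, H ≤ M ∧ FP M := by
  classical
  obtain ⟨S, rfl⟩ := hH
  induction S using Finset.induction_on with
  | empty => exact ⟨⊥, by simp, FP.bot⟩
  | @insert a S _ ih =>
    obtain ⟨M, h1, h2⟩ := ih
    obtain ⟨N, h3, h4⟩ : a ∈ fpRad G := h ▸ Subgroup.mem_top a
    refine ⟨M ⊔ N, ?_, h2.sup h3⟩
    rw [Subgroup.closure_le, Finset.coe_insert]
    refine Set.insert_subset (Subgroup.mem_sup_right h4) ?_
    exact fun x hx => Subgroup.mem_sup_left (h1 (Subgroup.subset_closure hx))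

/-- The zero-one law: in a simple group either only the trivial subgroup is finitely generated and
perfect, or every finitely generated subgroup lies in a finitely generated perfect subgroup. -/
theorem zero_one [IsSimpleGroup G] : (∀ M : Subgroup G, FP M → M = ⊥) ∨
    ∀ H : Subgroup G, H.FG → ∃ M : Subgroup G, H ≤ M ∧ FP M := by
  rcases IsSimpleGroup.eq_bot_or_eq_top_of_normal (fpRad G) inferInstance with h | h
  · left
    intro M hM
    rw [eq_bot_iff, ← h]
    exact fun x hx => ⟨M, hM, hx⟩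
  · exact Or.inr (fg_le h)

/-- In a countable group all of whose finitely generated subgroups lie in finitely generated perfect
subgroups, there is an ascending sequence of such subgroups with union the group. -/
theorem exists_chain [Countable G] (h : ∀ H : Subgroup G, H.FG → ∃ M : Subgroup G, H ≤ M ∧ FP M) :
    ∃ M : ℕ → Subgroup G, Monotone M ∧ (∀ n, FP (M n)) ∧ ∀ x, ∃ n, x ∈ M n := by
  obtain ⟨g, hg⟩ := exists_surjective_nat G
  have hstep : ∀ (n : ℕ) (N : {N : Subgroup G // FP N}), ∃ N' : {N : Subgroup G // FP N},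
      N.1 ≤ N'.1 ∧ g n ∈ N'.1 := by
    intro n N
    have h1 : (N.1 ⊔ Subgroup.zpowers (g n)).FG := by
      classical
      obtain ⟨S, hS⟩ := N.2.1
      refine ⟨insert (g n) S, ?_⟩
      rw [Finset.coe_insert, Set.insert_eq, Subgroup.closure_union, hS, sup_comm,
        Subgroup.zpowers_eq_closure]
    obtain ⟨M, h2, h3⟩ := h _ h1
    exact ⟨⟨M, h3⟩, le_sup_left.trans h2, h2 (Subgroup.mem_sup_right (Subgroup.mem_zpowers _))⟩
  choose nx h1 h2 using hstep
  let M : ℕ → {N : Subgroup G // FP N} := fun n => Nat.rec ⟨⊥, FP.bot⟩ (fun n N => nx n N) n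
  refine ⟨fun n => (M n).1, monotone_nat_of_le_succ fun n => h1 n (M n), fun n => (M n).2, ?_⟩
  intro x
  obtain ⟨n, rfl⟩ := hg x
  exact ⟨n + 1, h2 n (M n)⟩

end

/-- The direct limit of a sequence of groups is simple if the homomorphisms map the groups to the
commutator subgroups, which are the normal closures of the images of finite sets of elements that
exhaust the groups. -/
theorem simple_of_seq (G : ℕ → Type) [∀ n, Group (G n)] (φ : ∀ n, G n →* G (n + 1))
    (s : ∀ n, ℕ → G n) (hs : ∀ n, Surjective (s n)) (hs2 : ∀ n k, s (n + 1) (2 * k) = φ n (s n k))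
    (hc : ∀ n x, φ n x ∈ commutator (G (n + 1)))
    (hN : ∀ n, ∀ k ≤ 4 ^ n, s n k ≠ 1 →
      Subgroup.normalClosure {φ n (s n k)} = commutator (G (n + 1)))
    (S : Type) [Group S] [Nontrivial S] (ι : ∀ n, G n →* S)
    (hι : ∀ n x, ι (n + 1) (φ n x) = ι n x) (hsurj : ∀ x : S, ∃ n y, ι n y = x) :
    IsSimpleGroup S := by
  have up : ∀ (n j : ℕ) (x : G n), ∃ y : G (n + j), ι (n + j) y = ι n x := by
    intro n j x
    induction j with
    | zero => exact ⟨x, rfl⟩
    | succ j ih =>
      obtain ⟨y, hy⟩ := ih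
      exact ⟨φ _ y, (hι _ y).trans hy⟩
  have ups : ∀ (n j k : ℕ), ι (n + j) (s (n + j) (2 ^ j * k)) = ι n (s n k) := by
    intro n j k
    induction j with
    | zero => simp
    | succ j ih =>
      have h1 : 2 ^ (j + 1) * k = 2 * (2 ^ j * k) := by ring
      rw [h1]
      exact (congrArg (ι (n + j + 1)) (hs2 (n + j) (2 ^ j * k))).trans ((hι _ _).trans ih)
  refine { exists_pair_ne := exists_pair_ne S, eq_bot_or_eq_top_of_normal := fun H hH => ?_ }
  by_cases hb : H = ⊥
  · exact Or.inl hb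
  right
  obtain ⟨x, hxH, hx1⟩ := (Subgroup.ne_bot_iff_exists_ne_one.1 hb).elim
    fun a ha => (⟨a.1, a.2, fun h => ha (Subtype.ext h)⟩ : ∃ x ∈ H, x ≠ 1)
  obtain ⟨n, x', rfl⟩ := hsurj x
  obtain ⟨k, rfl⟩ := hs n x'
  rw [eq_top_iff]
  intro y _
  obtain ⟨m, y', rfl⟩ := hsurj y
  -- a common stage
  set j := m + k with hj
  obtain ⟨y2, hy2⟩ := up m (n + k) y'
  have hmn : m + (n + k) = n + j := by omega
  obtain ⟨y3, hy3⟩ : ∃ y3 : G (n + j), ι (n + j) y3 = ι m y' := by
    rw [← hmn]
    exact ⟨y2, hy2⟩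
  have hk : 2 ^ j * k ≤ 4 ^ (n + j) := by
    have h1 : k ≤ 2 ^ j := le_trans (by omega) (Nat.lt_two_pow_self (n := j)).le
    calc 2 ^ j * k ≤ 2 ^ j * 2 ^ j := Nat.mul_le_mul_left _ h1
      _ = 4 ^ j := by rw [← mul_pow]; norm_num
      _ ≤ 4 ^ (n + j) := Nat.pow_le_pow_right (by norm_num) (by omega)
  have hne : s (n + j) (2 ^ j * k) ≠ 1 := by
    intro h
    apply hx1
    rw [← ups n j k, h, map_one]
  have h1 := hN (n + j) _ hk hne
  have h2 : φ (n + j) y3 ∈ Subgroup.normalClosure {φ (n + j) (s (n + j) (2 ^ j * k))} :=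
    h1 ▸ hc _ _
  have h3 : Subgroup.normalClosure {φ (n + j) (s (n + j) (2 ^ j * k))} ≤ H.comap (ι (n + j + 1)) := by
    refine Subgroup.normalClosure_le_normal ?_
    rintro z rfl
    change ι (n + j + 1) (φ (n + j) _) ∈ H
    rw [hι, ups]
    exact hxH
  have h4 := h3 h2
  change ι (n + j + 1) (φ (n + j) y3) ∈ H at h4
  rwa [hι, hy3] at h4

end Pool.Agent.W59S.US
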