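import Pool.Agent.W59S.US.Wedge

set_option autoImplicit false

/-!
Countable subcomplexes whose fundamental groups embed.
-/

namespace Pool.Agent.W59S.US

open Function
open Pool.Agent.R655.LI

section
variable (L : Cx)

/-- the words in the letters from `A` -/
def FV (A : Set L.V) : Subgroup (FreeGroup L.V) := (FreeGroup.map (Subtype.val : A → L.V)).range

/-- the products of conjugates, by words in the letters from `A`, of the relators from `B` -/
def NV (A : Set L.V) (B : Set L.R) : Subgroup (FreeGroup L.V) :=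
  Subgroup.closure {x | ∃ g ∈ FV L A, ∃ j ∈ B, x = g * L.r j * g⁻¹}

variable {L}

lemma of_mem {A : Set L.V} {v : L.V} (h : v ∈ A) : FreeGroup.of v ∈ FV L A :=
  ⟨FreeGroup.of ⟨v, h⟩, FreeGroup.map.of⟩

lemma FV_mono {A A' : Set L.V} (h : A ⊆ A') : FV L A ≤ FV L A' := by
  rintro _ ⟨x, rfl⟩
  refine ⟨FreeGroup.map (Set.inclusion h) x, ?_⟩
  rw [FreeGroup.map.comp]
  rfl

lemma NV_mono {A A' : Set L.V} {B B' : Set L.R} (h : A ⊆ A') (h' : B ⊆ B') :
    NV L A B ≤ NV L A' B' := by
  refine Subgroup.closure_mono ?_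
  rintro x ⟨g, hg, j, hj, rfl⟩
  exact ⟨g, FV_mono h hg, j, h' hj, rfl⟩

lemma exists_supp (x : FreeGroup L.V) : ∃ A : Set L.V, A.Finite ∧ x ∈ FV L A := by
  induction x using FreeGroup.induction_on with
  | C1 => exact ⟨∅, Set.finite_empty, Subgroup.one_mem _⟩
  | of v => exact ⟨{v}, Set.finite_singleton v, of_mem rfl⟩
  | inv_of v h =>
    obtain ⟨A, h1, h2⟩ := h
    exact ⟨A, h1, Subgroup.inv_mem _ h2⟩
  | mul x y hx hy =>
    obtain ⟨A, h1, h2⟩ := hx
    obtain ⟨B, h3, h4⟩ := hy
    exact ⟨A ∪ B, h1.union h3, Subgroup.mul_mem _ (FV_mono Set.subset_union_left h2)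
      (FV_mono Set.subset_union_right h4)⟩

lemma exists_rel {y : FreeGroup L.V} (hy : y ∈ Subgroup.normalClosure (Set.range L.r)) :
    ∃ (A : Set L.V) (B : Set L.R), A.Finite ∧ B.Finite ∧ y ∈ NV L A B := by
  unfold Subgroup.normalClosure at hy
  induction hy using Subgroup.closure_induction with
  | mem x hx =>
    obtain ⟨_, ⟨j, rfl⟩, hc⟩ := Group.mem_conjugatesOfSet_iff.1 hx
    obtain ⟨g, hg⟩ := isConj_iff.1 hc
    obtain ⟨A, hA, hgA⟩ := exists_supp g
    exact ⟨A, {j}, hA, Set.finite_singleton j, Subgroup.subset_closure ⟨g, hgA, j, rfl, hg.symm⟩⟩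
  | one => exact ⟨∅, ∅, Set.finite_empty, Set.finite_empty, Subgroup.one_mem _⟩
  | mul x y _ _ hx hy =>
    obtain ⟨A, B, h1, h2, h3⟩ := hx
    obtain ⟨A', B', h4, h5, h6⟩ := hy
    exact ⟨A ∪ A', B ∪ B', h1.union h4, h2.union h5, Subgroup.mul_mem _
      (NV_mono Set.subset_union_left Set.subset_union_left h3)
      (NV_mono Set.subset_union_right Set.subset_union_right h6)⟩
  | inv x _ hx =>
    obtain ⟨A, B, h1, h2, h3⟩ := hx
    exact ⟨A, B, h1, h2, Subgroup.inv_mem _ h3⟩

/-- The pair `(A, B)` is a subcomplex whose fundamental group embeds. -/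
structure Closed (A : Set L.V) (B : Set L.R) : Prop where
  rel : ∀ j ∈ B, L.r j ∈ FV L A
  inj : ∀ y ∈ FV L A, y ∈ Subgroup.normalClosure (Set.range L.r) → y ∈ NV L A B

lemma FV_countable {A : Set L.V} (h : A.Countable) : (FV L A : Set (FreeGroup L.V)).Countable := by
  have : Countable A := h.to_subtype
  have : Countable (FreeGroup A) := (Quot.mk_surjective (r := FreeGroup.Red.Step)).countable
  exact Set.countable_range _

/-- words in the union of an ascending sequence of sets of letters -/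
lemma FV_iUnion {A : ℕ → Set L.V} (hA : Monotone A) {y : FreeGroup L.V} (hy : y ∈ FV L (⋃ n, A n)) :
    ∃ n, y ∈ FV L (A n) := by
  obtain ⟨x, rfl⟩ := hy
  induction x using FreeGroup.induction_on with
  | C1 => exact ⟨0, by rw [map_one]; exact Subgroup.one_mem _⟩
  | of v =>
    obtain ⟨n, hn⟩ := Set.mem_iUnion.1 v.2
    exact ⟨n, by rw [FreeGroup.map.of]; exact of_mem hn⟩
  | inv_of v h =>
    obtain ⟨n, hn⟩ := h
    exact ⟨n, by rw [map_inv]; exact Subgroup.inv_mem _ hn⟩
  | mul x y hx hy =>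
    obtain ⟨n, hn⟩ := hx
    obtain ⟨m, hm⟩ := hy
    exact ⟨max n m, by
      rw [map_mul]
      exact Subgroup.mul_mem _ (FV_mono (hA (le_max_left n m)) hn)
        (FV_mono (hA (le_max_right n m)) hm)⟩

theorem exists_closed (A₀ : Set L.V) (B₀ : Set L.R) (hA₀ : A₀.Countable) (hB₀ : B₀.Countable) :
    ∃ (A : Set L.V) (B : Set L.R), A₀ ⊆ A ∧ B₀ ⊆ B ∧ A.Countable ∧ B.Countable ∧ Closed A B := by
  classical
  have h1 : ∀ y : FreeGroup L.V, ∃ (A : Set L.V) (B : Set L.R), A.Countable ∧ B.Countable ∧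
      (y ∈ Subgroup.normalClosure (Set.range L.r) → y ∈ NV L A B) := by
    intro y
    by_cases hy : y ∈ Subgroup.normalClosure (Set.range L.r)
    · obtain ⟨A, B, hA, hB, h⟩ := exists_rel hy
      exact ⟨A, B, hA.countable, hB.countable, fun _ => h⟩
    · exact ⟨∅, ∅, Set.countable_empty, Set.countable_empty, fun h => absurd h hy⟩
  choose α β hα hβ hαβ using h1
  have h2 : ∀ j : L.R, ∃ C : Set L.V, C.Countable ∧ L.r j ∈ FV L C := by
    intro j
    obtain ⟨C, hC, h⟩ := exists_supp (L.r j)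
    exact ⟨C, hC.countable, h⟩
  choose γ hγ hγ' using h2
  let nx : Set L.V × Set L.R → Set L.V × Set L.R := fun X =>
    (X.1 ∪ ((⋃ j ∈ X.2, γ j) ∪ ⋃ y ∈ (FV L X.1 : Set (FreeGroup L.V)), α y),
      X.2 ∪ ⋃ y ∈ (FV L X.1 : Set (FreeGroup L.V)), β y)
  let X : ℕ → Set L.V × Set L.R := fun n => nx^[n] (A₀, B₀)
  have hX : ∀ n, X (n + 1) = nx (X n) := fun n => Function.iterate_succ_apply' nx n _
  have hc : ∀ n, (X n).1.Countable ∧ (X n).2.Countable := by
    intro n
    induction n with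
    | zero => exact ⟨hA₀, hB₀⟩
    | succ n ih =>
      rw [hX]
      exact ⟨ih.1.union ((ih.2.biUnion fun j _ => hγ j).union
        ((FV_countable ih.1).biUnion fun y _ => hα y)),
        ih.2.union ((FV_countable ih.1).biUnion fun y _ => hβ y)⟩
  have m1 : Monotone fun n => (X n).1 := monotone_nat_of_le_succ fun n => by
    change (X n).1 ⊆ (X (n + 1)).1
    rw [hX]
    exact Set.subset_union_left
  have m2 : Monotone fun n => (X n).2 := monotone_nat_of_le_succ fun n => by
    change (X n).2 ⊆ (X (n + 1)).2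
    rw [hX]
    exact Set.subset_union_left
  refine ⟨⋃ n, (X n).1, ⋃ n, (X n).2, Set.subset_iUnion (fun n => (X n).1) 0,
    Set.subset_iUnion (fun n => (X n).2) 0, Set.countable_iUnion fun n => (hc n).1,
    Set.countable_iUnion fun n => (hc n).2, ?_, ?_⟩
  · intro j hj
    obtain ⟨n, hn⟩ := Set.mem_iUnion.1 hj
    refine FV_mono ?_ (hγ' j)
    refine subset_trans ?_ (Set.subset_iUnion (fun n => (X n).1) (n + 1))
    change γ j ⊆ (X (n + 1)).1
    rw [hX]
    exact fun v hv => Or.inr (Or.inl (Set.mem_biUnion hn hv))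
  · intro y hy hyN
    obtain ⟨n, hn⟩ := FV_iUnion m1 hy
    refine NV_mono ?_ ?_ (hαβ y hyN)
    · refine subset_trans ?_ (Set.subset_iUnion (fun n => (X n).1) (n + 1))
      change α y ⊆ (X (n + 1)).1
      rw [hX]
      exact fun v hv => Or.inr (Or.inr (Set.mem_biUnion (x := y) hn hv))
    · refine subset_trans ?_ (Set.subset_iUnion (fun n => (X n).2) (n + 1))
      change β y ⊆ (X (n + 1)).2
      rw [hX]
      exact fun v hv => Or.inr (Set.mem_biUnion (x := y) hn hv)

/-- the subcomplex -/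
noncomputable def restr {A : Set L.V} {B : Set L.R} (h : Closed A B) : Cx where
  V := A
  R := B
  r j := (h.rel j j.2).choose

lemma restr_r {A : Set L.V} {B : Set L.R} (h : Closed A B) (j : B) :
    FreeGroup.map Subtype.val ((restr h).r j) = L.r j := (h.rel j j.2).choose_spec

/-- its inclusion -/
def restrSub {A : Set L.V} {B : Set L.R} (h : Closed A B) : Sub (restr h) L where
  v := Function.Embedding.subtype _
  c := Function.Embedding.subtype _
  comm j := restr_r h j

lemma sub_mk {K : Cx} (i : Sub K L) (x : FreeGroup K.V) :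
    i.map (PresentedGroup.mk _ x) = PresentedGroup.mk _ (FreeGroup.map i.v x) := by
  have : i.map.comp (PresentedGroup.mk _) = (PresentedGroup.mk _).comp (FreeGroup.map i.v) := by
    ext v
    exact (map_of i v).trans (by simp [PresentedGroup.of])
  exact DFunLike.congr_fun this x

lemma map_map' {A B C D : Type} (f : A → B) (g : B → D) (f' : A → C) (g' : C → D)
    (h : ∀ a, g (f a) = g' (f' a)) (x : FreeGroup A) :
    FreeGroup.map g (FreeGroup.map f x) = FreeGroup.map g' (FreeGroup.map f' x) := by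
  rw [FreeGroup.map.comp, FreeGroup.map.comp, show g ∘ f = g' ∘ f' from funext h]

lemma map_inj {A B : Type} {f : A → B} (hf : Injective f) : Injective (FreeGroup.map f) := by
  classical
  by_cases hA : Nonempty A
  · obtain ⟨g, hg⟩ := hf.hasLeftInverse
    intro x y hxy
    have := congrArg (FreeGroup.map g) hxy
    rwa [FreeGroup.map.comp, FreeGroup.map.comp, hg.comp_eq_id, FreeGroup.map.id,
      FreeGroup.map.id] at this
  · have := not_nonempty_iff.1 hA
    exact fun x y _ => Subsingleton.elim x y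

lemma restr_inj {A : Set L.V} {B : Set L.R} (h : Closed A B) : Injective (restrSub h).map := by
  rw [injective_iff_map_eq_one]
  intro z hz
  obtain ⟨y, rfl⟩ := QuotientGroup.mk_surjective z
  have h1 : (PresentedGroup.mk _ (FreeGroup.map Subtype.val y) : L.Pi) = 1 :=
    (sub_mk (restrSub h) y).symm.trans hz
  have h2 : FreeGroup.map Subtype.val y ∈ Subgroup.normalClosure (Set.range L.r) :=
    (QuotientGroup.eq_one_iff _).1 h1
  have h3 := h.inj _ ⟨y, rfl⟩ h2
  have h4 : NV L A B ≤ (Subgroup.normalClosure (Set.range (restr h).r)).map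
      (FreeGroup.map Subtype.val) := by
    refine (Subgroup.closure_le _).2 ?_
    rintro x ⟨g, ⟨g', rfl⟩, j, hj, rfl⟩
    let rj : FreeGroup A := (restr h).r ⟨j, hj⟩
    have h5 : FreeGroup.map Subtype.val rj = L.r j := restr_r h ⟨j, hj⟩
    refine ⟨g' * rj * g'⁻¹, ?_, ?_⟩
    · exact Subgroup.normalClosure_normal.conj_mem rj
        (Subgroup.subset_normalClosure (Set.mem_range_self (f := (restr h).r) ⟨j, hj⟩)) g'
    · rw [map_mul, map_mul, map_inv, h5]
  obtain ⟨x, hx, hxy⟩ := h4 h3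
  have h6 : x = y := map_inj Subtype.val_injective hxy
  rw [h6] at hx
  exact (QuotientGroup.eq_one_iff _).2 hx

/-- subcomplexes have injective boundary operators -/
lemma bdry_sub {K : Cx} (i : Sub K L) (h : Injective L.bdry) : Injective K.bdry := by
  have h1 : (Finsupp.lmapDomain ℤ ℤ i.v).comp K.bdry = L.bdry.comp (Finsupp.lmapDomain ℤ ℤ i.c) := by
    refine Finsupp.lhom_ext fun j z => ?_
    simp only [LinearMap.comp_apply, Cx.bdry, Finsupp.lmapDomain_apply, Finsupp.mapDomain_single,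
      Finsupp.linearCombination_single, Finsupp.mapDomain_smul]
    rw [← expSum_map, i.comm]
  have h2 : Injective ((Finsupp.lmapDomain ℤ ℤ i.v).comp K.bdry) := by
    rw [h1]
    exact h.comp (Finsupp.mapDomain_injective i.c.injective)
  exact fun x y hxy => h2 (congrArg (Finsupp.lmapDomain ℤ ℤ i.v) hxy)

end

/-- Every subcomplex `K` of a contractible complex `L` and every countable set of words in the 1-cells
of `K` lie in a countable `π₁`-injective subcomplex of `K`, which is a subcomplex of a countable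
contractible subcomplex of `L`. -/
theorem exists_countable {K L : Cx} (i : Sub K L) (hL : L.Contractible) (A₀ : Set K.V)
    (hA₀ : A₀.Countable) : ∃ (K' L' : Cx) (_ : Sub K' L') (s : Sub K' K), L'.Contractible ∧
      Countable L'.V ∧ Countable L'.R ∧ Injective s.map ∧ ∀ v ∈ A₀, v ∈ Set.range s.v := by
  obtain ⟨A, B, h1, _, h3, h4, h5⟩ := exists_closed (L := K) A₀ ∅ hA₀ Set.countable_empty
  obtain ⟨A', B', g1, g2, g3, g4, g5⟩ := exists_closed (L := L) (i.v '' A) (i.c '' B)
    (h3.image _) (h4.image _)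
  refine ⟨restr h5, restr g5, ⟨⟨fun v => ⟨i.v v.1, g1 ⟨v.1, v.2, rfl⟩⟩, fun a b hab =>
    Subtype.ext (i.v.injective (Subtype.ext_iff.1 hab))⟩, ⟨fun j => ⟨i.c j.1, g2 ⟨j.1, j.2, rfl⟩⟩,
    fun a b hab => Subtype.ext (i.c.injective (Subtype.ext_iff.1 hab))⟩, fun j => ?_⟩,
    restrSub h5, ⟨fun x => ?_, bdry_sub (restrSub g5) hL.bdry_inj⟩, g3.to_subtype, g4.to_subtype,
    restr_inj h5, fun v hv => ⟨⟨v, h1 hv⟩, rfl⟩⟩
  · apply map_inj (Subtype.val_injective (p := fun v => v ∈ A'))
    have e1 := restr_r g5 ⟨i.c j.1, g2 ⟨j.1, j.2, rfl⟩⟩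
    refine Eq.trans ?_ e1.symm
    refine Eq.trans ?_ (i.comm j.1)
    rw [← restr_r h5 j]
    exact map_map' (A := A) (B := A') (C := K.V) (D := L.V) (fun v => ⟨i.v v.1, g1 ⟨v.1, v.2, rfl⟩⟩)
      Subtype.val Subtype.val i.v (fun _ => rfl) _
  · exact restr_inj g5 ((hL.pi_eq_one _).trans (map_one (restrSub g5).map).symm)

end Pool.Agent.W59S.US
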