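import Pool.Agent.W59S.US.Main
import Pool.Agent.W59S.US.LS

set_option autoImplicit false

/-!
Consequences: the simple groups decide the question, the zero-one law.
-/

namespace Pool.Agent.W59S.US

open Function
open Pool.Agent.R655.LI
open Pool.Agent.W5h69.PT (perf_bot exists_perf hull_sub question_perf question_pind exists_pair)
open scoped commutatorElement

section
variable {G G' : Type} [Group G] [Group G']

lemma fg_of_map {f : G' →* G} (hf : Injective f) {H : Subgroup G'} (h : (H.map f).FG) : H.FG := by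
  have h1 : Group.FG (H.map f) := (Group.fg_iff_subgroup_fg _).2 h
  have h2 : Group.FG H := Group.fg_of_surjective
    (f := ((H.equivMapOfInjective f hf).symm : H.map f →* H)) (H.equivMapOfInjective f hf).symm.surjective
  exact (Group.fg_iff_subgroup_fg _).1 h2

lemma fp_comap {f : G' →* G} (hf : Injective f) {M : Subgroup G} (hM : FP M) (h : M ≤ f.range) :
    FP (M.comap f) := by
  have h1 : (M.comap f).map f = M := Subgroup.map_comap_eq_self h
  refine ⟨fg_of_map hf (h1.symm ▸ hM.1), ?_⟩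
  apply Subgroup.map_injective hf
  rw [Subgroup.map_commutator, h1, hM.2]

lemma locInd_inj {f : G' →* G} (hf : Injective f) (h : LocInd G) : LocInd G' := by
  intro H hfg hH
  obtain ⟨g, hg⟩ := h (H.map f) (fg_map f hfg) (by rwa [Ne, Subgroup.map_eq_bot_iff_of_injective _ hf])
  exact ⟨g.comp (H.equivMapOfInjective f hf : H →* H.map f),
    hg.comp (H.equivMapOfInjective f hf).surjective⟩

lemma pind_inj {p : ℕ} {f : G' →* G} (hf : Injective f) (h : PInd p G) : PInd p G' := by
  intro H hfg hH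
  obtain ⟨g, hg⟩ := h (H.map f) (fg_map f hfg) (by rwa [Ne, Subgroup.map_eq_bot_iff_of_injective _ hf])
  refine ⟨g.comp (H.equivMapOfInjective f hf : H →* H.map f), fun h1 => hg ?_⟩
  ext y
  obtain ⟨z, rfl⟩ := (H.equivMapOfInjective f hf).surjective y
  exact congrArg Multiplicative.toAdd (DFunLike.congr_fun h1 z)

lemma inj_of_simple [IsSimpleGroup G] {f : G →* G'} (hf : f ≠ 1) : Injective f := by
  rcases IsSimpleGroup.eq_bot_or_eq_top_of_normal f.ker inferInstance with h | h
  · exact (MonoidHom.ker_eq_bot_iff f).1 h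
  · exact absurd ((MonoidHom.ker_eq_top_iff).1 h) hf

/-- the subgroup `N` that is the normal closure of an element of a finitely generated perfect subgroup
is the union of such subgroups -/
lemma le_fpRad {M : Subgroup G} (hM : FP M) {x : G} (hx : x ∈ M) :
    Subgroup.normalClosure {x} ≤ fpRad G := by
  refine Subgroup.normalClosure_le_normal ?_
  rintro _ rfl
  exact ⟨M, hM, hx⟩

lemma fg_le' {N : Subgroup G} (h : N ≤ fpRad G) (H : Subgroup G) (hH : H.FG) (hHN : H ≤ N) :
    ∃ M : Subgroup G, H ≤ M ∧ FP M := by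
  classical
  obtain ⟨S, rfl⟩ := hH
  induction S using Finset.induction_on with
  | empty => exact ⟨⊥, by simp, FP.bot⟩
  | @insert a S _ ih =>
    rw [Finset.coe_insert] at hHN ⊢
    have hsub := (Subgroup.closure_le _).1 hHN
    obtain ⟨M, h1, h2⟩ := ih ((Subgroup.closure_le _).2 fun x hx => hsub (Set.mem_insert_of_mem _ hx))
    obtain ⟨N', h3, h4⟩ : a ∈ fpRad G := h (hsub (Set.mem_insert _ _))
    refine ⟨M ⊔ N', ?_, h2.sup h3⟩
    rw [Subgroup.closure_le]
    refine Set.insert_subset (Subgroup.mem_sup_right h4) ?_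
    exact fun x hx => Subgroup.mem_sup_left (h1 (Subgroup.subset_closure hx))

end

/-- Q1 for all complexes may be tested on the countable ones. -/
theorem question_ct : Question (fun _ => True) ↔ Question IsCt := by
  constructor
  · intro h K L i hL _
    exact h K L i hL trivial
  · intro h
    rw [question_perf] at h ⊢
    intro K L i hL _ M hfg hM
    obtain ⟨T, hT⟩ := hfg
    have h1 : ∀ x : K.Pi, ∃ w : FreeGroup K.V, PresentedGroup.mk _ w = x :=
      fun x => QuotientGroup.mk_surjective x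
    choose w hw using h1
    have h2 : ∀ x : K.Pi, ∃ A : Set K.V, A.Finite ∧ w x ∈ FV K A := fun x => exists_supp (w x)
    choose A hA hwA using h2
    obtain ⟨K', L', i', s, h3, h4, h5, h6, h7⟩ := exists_countable i hL (⋃ x ∈ T, A x)
      (Set.Finite.countable (T.finite_toSet.biUnion fun x _ => hA x))
    have hle : M ≤ s.map.range := by
      rw [← hT, Subgroup.closure_le]
      intro x hx
      have h8 : FV K (A x) ≤ (FreeGroup.map s.v).range := by
        rintro _ ⟨y, rfl⟩
        have h9 : ∀ v : A x, ∃ u, s.v u = v.1 := fun v =>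
          h7 v.1 (Set.mem_biUnion (x := x) hx v.2)
        choose u hu using h9
        refine ⟨FreeGroup.map u y, ?_⟩
        rw [FreeGroup.map.comp]
        congr 1
        congr 1
        funext v
        exact hu v
      obtain ⟨y, hy⟩ := h8 (hwA x)
      refine ⟨PresentedGroup.mk _ y, ?_⟩
      rw [sub_mk, hy, hw]
    have hfp : FP (M.comap s.map) := fp_comap h6 ⟨⟨T, hT⟩, hM⟩ hle
    have hb := h K' L' i' h3 ⟨h4, h5⟩ _ hfp.1 hfp.2
    rw [← Subgroup.map_comap_eq_self hle, hb, Subgroup.map_bot]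

/-- Every finitely generated subgroup of `S` lies in a subgroup which is isomorphic to `π₁(L - e)`
for a contractible complex `L` with the property `P` and a 2-cell `e` attached along a 1-cell. -/
def Locally (P : Cx → Prop) (S : Type) [Group S] : Prop :=
  ∀ H : Subgroup S, H.FG → ∃ (L : Cx) (e : L.R), OneCell L e ∧ P L ∧
    ∃ f : (L.del e).Pi →* S, Injective f ∧ H ≤ f.range

lemma Tower.locally {P : Cx → Prop} {X : Cx} (h : Tower P X) : Locally P X.Pi := by
  intro H hH
  obtain ⟨L, e, u, hu, hL⟩ := h.union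
  obtain ⟨n, hn⟩ := hu.fg_range hH
  exact ⟨L n, e n, (hL n).1, (hL n).2.1, (u n).map, (hL n).2.2, hn⟩

lemma perf_of_locally {P : Cx → Prop} {S : Type} [Group S] (h : Locally P S) (hS : ¬ LocInd S) :
    ∃ M : Subgroup S, FP M ∧ M ≠ ⊥ := by
  unfold LocInd at hS
  push Not at hS
  obtain ⟨H, hfg, hH, hs⟩ := hS
  obtain ⟨L, e, h1, h2, f, hf, hr⟩ := h H hfg
  have hG : ¬ LocInd (L.del e).Pi := by
    intro hG
    have e1 : (H.comap f).map f = H := Subgroup.map_comap_eq_self hr
    obtain ⟨g, hg⟩ := hG (H.comap f) (fg_of_map hf (e1.symm ▸ hfg)) (by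
      intro hb
      rw [hb, Subgroup.map_bot] at e1
      exact hH e1.symm)
    let E : H.comap f ≃* H := (Subgroup.equivMapOfInjective _ f hf).trans (MulEquiv.subgroupCongr e1)
    exact hs (g.comp (E.symm : H →* H.comap f)) (hg.comp E.symm.surjective)
  obtain ⟨M, h3, h4, h5⟩ := exists_perf (hull_sub (delSub L e) h1.1) hG
  refine ⟨M.map f, FP.map f ⟨h3, h4⟩, ?_⟩
  rwa [Ne, Subgroup.map_eq_bot_iff_of_injective _ hf]

lemma locInd_of_question {P : Cx → Prop} (hQ : Question P) {S : Type} [Group S] (h : Locally P S) :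
    LocInd S := by
  by_contra hS
  obtain ⟨M, h1, h2⟩ := perf_of_locally h hS
  obtain ⟨L, e, h3, h4, f, hf, hr⟩ := h M h1.1
  have h5 := fp_comap hf h1 hr
  have h6 := perf_bot (hQ _ _ (delSub L e) h3.1 h4) h5.1 h5.2
  apply h2
  rw [← Subgroup.map_comap_eq_self hr, h6, Subgroup.map_bot]

lemma not_locInd_of_fp {S : Type} [Group S] {M : Subgroup S} (hM : FP M) {x : S} (hx : x ∈ M)
    (h1 : x ≠ 1) : ¬ LocInd S := by
  intro h
  have := perf_bot h hM.1 hM.2
  subst this
  exact h1 (Subgroup.mem_bot.1 hx)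

/-- `S` is the union of an ascending sequence of finitely generated perfect subgroups. -/
def Chain (S : Type) [Group S] : Prop :=
  ∃ M : ℕ → Subgroup S, Monotone M ∧ (∀ n, (M n).FG ∧ ⁅M n, M n⁆ = M n) ∧ ∀ x, ∃ n, x ∈ M n

/-- the zero-one law for the simple groups -/
theorem locInd_or_chain {P : Cx → Prop} {S : Type} [Group S] [Countable S] [IsSimpleGroup S]
    (h : Locally P S) : (LocInd S ∨ Chain S) ∧ ¬ (LocInd S ∧ Chain S) := by
  constructor
  · by_cases hS : LocInd S
    · exact Or.inl hS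
    · obtain ⟨M, h1, h2⟩ := perf_of_locally h hS
      rcases zero_one (G := S) with h0 | h0
      · exact absurd (h0 M h1) h2
      · exact Or.inr (exists_chain h0)
  · rintro ⟨h1, M, h2, h3, h4⟩
    obtain ⟨x, hx⟩ := exists_ne (1 : S)
    obtain ⟨n, hn⟩ := h4 x
    exact not_locInd_of_fp (h3 n) hn hx h1

/-- the equivalent conditions -/
theorem tower_tfae {P : Cx → Prop} {X : Cx} (h : Tower P X) : List.TFAE [LocInd X.Pi,
    ∃ (A : Type) (_ : Group A) (f : X.Pi →* A), f ≠ 1 ∧
      ∀ M : Subgroup A, M.FG → ⁅M, M⁆ = M → M = ⊥,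
    ∃ x : X.Pi, ∀ M : Subgroup X.Pi, M.FG → ⁅M, M⁆ = M → x ∉ M,
    ¬ Chain X.Pi] := by
  have hs := h.simple
  have hc := countable_pi X h.ct
  have h0 := locInd_or_chain h.locally
  tfae_have 1 → 2 := by
    intro h1
    refine ⟨X.Pi, inferInstance, MonoidHom.id _, fun h2 => ?_, fun M => perf_bot h1⟩
    obtain ⟨x, hx⟩ := exists_ne (1 : X.Pi)
    exact hx (DFunLike.congr_fun h2 x)
  tfae_have 2 → 1 := by
    rintro ⟨A, _, f, hf, hA⟩
    by_contra h1
    obtain ⟨M, h2, h3⟩ := perf_of_locally h.locally h1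
    have h4 := FP.map f h2
    have h5 := hA _ h4.1 h4.2
    rw [Subgroup.map_eq_bot_iff_of_injective _ (inj_of_simple hf)] at h5
    exact h3 h5
  tfae_have 1 → 3 := by
    intro h1
    obtain ⟨x, hx⟩ := exists_ne (1 : X.Pi)
    exact ⟨x, fun M h2 h3 h4 => not_locInd_of_fp ⟨h2, h3⟩ h4 hx h1⟩
  tfae_have 3 → 4 := by
    rintro ⟨x, hx⟩ ⟨M, _, h2, h3⟩
    obtain ⟨n, hn⟩ := h3 x
    exact hx (M n) (h2 n).1 (h2 n).2 hn
  tfae_have 4 → 1 := fun h1 => h0.1.resolve_right h1
  tfae_finish

/-- Q1 for complexes with the property `P`. -/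
theorem question_iff_towers {P : Cx → Prop} (hP : Cls P) :
    Question P ↔ ∀ X, Tower P X → LocInd X.Pi := by
  constructor
  · intro h X hX
    exact locInd_of_question h hX.locally
  · intro h K L i hL hPL
    obtain ⟨X, h1, _, u, hu⟩ := exists_tower hP K L i hL hPL
    exact locInd_inj hu (h X h1)

/-- Q1 for finite complexes is decided by one group. -/
theorem question_iff_univ {X : Cx} (h : Tower Cx.IsFin X) (hX : Univ X) :
    Question Cx.IsFin ↔ LocInd X.Pi := by
  constructor
  · intro hQ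
    exact locInd_of_question hQ h.locally
  · intro h K L i hL hPL
    obtain ⟨u, hu⟩ := hX K L i hL hPL
    exact locInd_inj hu h

/-- The zero-one law for Q1: if it has a negative answer then all the fundamental groups are, after an
enlargement of the complexes, contained in unions of finitely generated perfect subgroups. -/
theorem zero_one_question (P : Cx → Prop) (hP : ∀ L L' : Cx, (L.IsFin → L'.IsFin) → P L → P L')
    (hW : ∀ L₁ L₂, P L₁ → P L₂ → P (wedge L₁ L₂)) (h : ¬ Question P)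
    (K L : Cx) (i : Sub K L) (hL : L.Contractible) (hPL : P L) :
    ∃ (L' : Cx) (e : L'.R) (s : Sub K (L'.del e)), OneCell L' e ∧ P L' ∧ Injective s.map ∧
      ∀ H : Subgroup K.Pi, H.FG → ∃ M : Subgroup (L'.del e).Pi, H.map s.map ≤ M ∧
        M.FG ∧ ⁅M, M⁆ = M := by
  unfold Question at h
  push Not at h
  obtain ⟨K₀, L₀, i₀, hL₀, hP₀, hK₀⟩ := h
  obtain ⟨M₀, g1, g2, g3⟩ := exists_perf (hull_sub i₀ hL₀) hK₀
  obtain ⟨x, hx⟩ := Subgroup.ne_bot_iff_exists_ne_one.1 g3
  have hx1 : (x : K₀.Pi) ≠ 1 := fun h => hx (Subtype.ext h)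
  obtain ⟨L', t, e, s, ⟨f1, f2, f3, f4, f5, f6⟩, hN⟩ := single (wedge K K₀) (wedge L L₀)
    (subWedge i i₀) (wedge_contractible hL hL₀) ((sub₂ K K₀).map x.1)
    (fun h => hx1 (sub₂_inj K K₀ (h.trans (map_one _).symm)))
  have hr : commutator (L'.del e).Pi ≤ fpRad (L'.del e).Pi := by
    rw [← hN]
    exact le_fpRad (FP.map (s.map.comp (sub₂ K K₀).map) ⟨g1, g2⟩) ⟨x.1, x.2, rfl⟩
  refine ⟨L', e, (sub₁ K K₀).trans s, ⟨f1, t, f2⟩, hP _ _ f3 (hW _ _ hPL hP₀), ?_, ?_⟩
  · rw [map_trans]
    exact f4.comp (sub₁_inj K K₀)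
  · intro H hH
    obtain ⟨M, h1, h2⟩ := fg_le' hr (H.map ((sub₁ K K₀).trans s).map) (fg_map _ hH) (by
      rintro _ ⟨y, _, rfl⟩
      rw [map_trans]
      exact f5 _)
    exact ⟨M, h1, h2.1, h2.2⟩

end Pool.Agent.W59S.US
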