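import Pool.Agent.W59S.US.LS
import Mathlib.Algebra.Colimit.DirectLimit

set_option autoImplicit false

/-!
Ascending unions of complexes.
-/

namespace Pool.Agent.W59S.US

open Function
open Pool.Agent.R655.LI

section types
variable (X : ℕ → Type) (f : ∀ n, X n ↪ X (n + 1))

lemma tf_inj (i j : ℕ) (h : i ≤ j) : Injective (Nat.leRecOn h (fun {k} => f k) : X i → X j) := by
  induction j, h using Nat.le_induction with
  | base =>
    intro x y hxy
    dsimp only at hxy
    rwa [Nat.leRecOn_self, Nat.leRecOn_self] at hxy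
  | succ n hmn ih =>
    intro x y hxy
    dsimp only at hxy
    rw [Nat.leRecOn_succ hmn, Nat.leRecOn_succ hmn] at hxy
    exact ih ((f n).injective hxy)

/-- the composite embeddings -/
def tf (i j : ℕ) (h : i ≤ j) : X i ↪ X j := ⟨Nat.leRecOn h (fun {k} => f k), tf_inj X f i j h⟩

instance dsys : DirectedSystem X (fun i j h => ⇑(tf X f i j h)) where
  map_self _ x := Nat.leRecOn_self x
  map_map _ _ _ hij hjk x := (Nat.leRecOn_trans hij hjk x).symm

/-- the direct limit of a sequence of injections -/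
theorem exists_colim_type :
    ∃ (Y : Type) (a : ∀ n, X n → Y), (∀ n, Injective (a n)) ∧
      (∀ n x, a (n + 1) (f n x) = a n x) ∧ ∀ y, ∃ n x, a n x = y := by
  refine ⟨DirectLimit X (fun i j h => tf X f i j h), fun n x => ⟦⟨n, x⟩⟧, fun n => ?_,
    fun n x => ?_, fun y => ?_⟩
  · exact DirectLimit.mk_injective (f := fun i j h => tf X f i j h)
      (fun i j h => (tf X f i j h).injective) n
  · refine Eq.trans ?_ (DirectLimit.eq_of_le (f := fun i j h => tf X f i j h) ⟨n, x⟩ (n + 1)
      (Nat.le_succ n)).symm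
    have : tf X f n (n + 1) (Nat.le_succ n) x = f n x :=
      (Nat.leRecOn_succ (C := X) (next := fun {k} => f k) le_rfl x).trans
        (congrArg (f n) (Nat.leRecOn_self x))
    rw [this]
  · obtain ⟨n, x, h⟩ := DirectLimit.exists_eq_mk (f := fun i j h => tf X f i j h) y
    exact ⟨n, x, h.symm⟩

end types

/-- compatibility of the inclusions -/
structure Compat (K : ℕ → Cx) (j : ∀ n, Sub (K n) (K (n + 1))) (X : Cx) (u : ∀ n, Sub (K n) X) :
    Prop where
  v : ∀ n x, (u (n + 1)).v ((j n).v x) = (u n).v x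
  c : ∀ n x, (u (n + 1)).c ((j n).c x) = (u n).c x

/-- `X` is the union of the ascending sequence of the subcomplexes `K n`. -/
structure Un (K : ℕ → Cx) (X : Cx) (u : ∀ n, Sub (K n) X) : Prop where
  v_mono : ∀ n, Set.range (u n).v ⊆ Set.range (u (n + 1)).v
  c_mono : ∀ n, Set.range (u n).c ⊆ Set.range (u (n + 1)).c
  v_all : ∀ x, ∃ n, x ∈ Set.range (u n).v
  c_all : ∀ x, ∃ n, x ∈ Set.range (u n).c

lemma lift_trans {K L M : Cx} (i : Sub K L) (j : Sub L M) (w : FreeGroup K.V) :
    FreeGroup.map (i.trans j).v w = FreeGroup.map j.v (FreeGroup.map i.v w) := by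
  rw [FreeGroup.map.comp]
  rfl

/-- the union of an ascending sequence of complexes -/
theorem exists_union (K : ℕ → Cx) (j : ∀ n, Sub (K n) (K (n + 1))) :
    ∃ (X : Cx) (u : ∀ n, Sub (K n) X), Compat K j X u ∧ Un K X u := by
  obtain ⟨V, a, ha, ha', hV⟩ := exists_colim_type (fun n => (K n).V) (fun n => (j n).v)
  obtain ⟨R, b, hb, hb', hR⟩ := exists_colim_type (fun n => (K n).R) (fun n => (j n).c)
  have up : ∀ n N, n ≤ N → ∃ i : Sub (K n) (K N), (∀ v, a N (i.v v) = a n v) ∧
      ∀ c, b N (i.c c) = b n c := by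
    intro n N h
    induction N, h using Nat.le_induction with
    | base =>
      exact ⟨⟨Function.Embedding.refl _, Function.Embedding.refl _, fun c => FreeGroup.map.id _⟩,
        fun _ => rfl, fun _ => rfl⟩
    | succ N _ ih =>
      obtain ⟨i, h1, h2⟩ := ih
      exact ⟨i.trans (j N), fun v => (ha' N _).trans (h1 v), fun c => (hb' N _).trans (h2 c)⟩
  choose nR xR hxR using hR
  have key : ∀ n m (x : (K n).R) (y : (K m).R), b n x = b m y →
      FreeGroup.map (a n) ((K n).r x) = FreeGroup.map (a m) ((K m).r y) := by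
    intro n m x y hxy
    obtain ⟨i, h1, h2⟩ := up n (max n m) (le_max_left n m)
    obtain ⟨i', h1', h2'⟩ := up m (max n m) (le_max_right n m)
    have h3 : i.c x = i'.c y := hb _ ((h2 x).trans (hxy.trans (h2' y).symm))
    have e1 : FreeGroup.map (a n) ((K n).r x) =
        FreeGroup.map (a (max n m)) (FreeGroup.map i.v ((K n).r x)) := by
      rw [FreeGroup.map.comp]
      congr 2
      funext v
      exact (h1 v).symm
    have e2 : FreeGroup.map (a m) ((K m).r y) =
        FreeGroup.map (a (max n m)) (FreeGroup.map i'.v ((K m).r y)) := by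
      rw [FreeGroup.map.comp]
      congr 2
      funext v
      exact (h1' v).symm
    rw [e1, e2, i.comm, i'.comm, h3]
  let X : Cx := ⟨V, R, fun c => FreeGroup.map (a (nR c)) ((K (nR c)).r (xR c))⟩
  let u : ∀ n, Sub (K n) X := fun n => ⟨⟨a n, ha n⟩, ⟨b n, hb n⟩, fun c => by
    exact key n _ c _ (hxR (b n c)).symm⟩
  refine ⟨X, u, ⟨ha', hb'⟩, ?_, ?_, ?_, ?_⟩
  · rintro n _ ⟨x, rfl⟩
    exact ⟨(j n).v x, ha' n x⟩
  · rintro n _ ⟨x, rfl⟩
    exact ⟨(j n).c x, hb' n x⟩
  · intro x
    obtain ⟨n, y, h⟩ := hV x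
    exact ⟨n, y, h⟩
  · intro x
    exact ⟨nR x, xR x, hxR x⟩

section
variable {K : ℕ → Cx} {X : Cx} {u : ∀ n, Sub (K n) X}

lemma FV_range {K L : Cx} (i : Sub K L) {w : FreeGroup L.V} (h : w ∈ FV L (Set.range i.v)) :
    ∃ w' : FreeGroup K.V, FreeGroup.map i.v w' = w := by
  obtain ⟨y, rfl⟩ := h
  have h9 : ∀ v : Set.range i.v, ∃ u, i.v u = v.1 := fun v => v.2
  choose u hu using h9
  refine ⟨FreeGroup.map u y, ?_⟩
  rw [FreeGroup.map.comp]
  congr 2
  funext v
  exact hu v

lemma NV_range {K L : Cx} (i : Sub K L) : NV L (Set.range i.v) (Set.range i.c) ≤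
    (Subgroup.normalClosure (Set.range K.r)).map (FreeGroup.map i.v) := by
  refine (Subgroup.closure_le _).2 ?_
  rintro x ⟨g, hg, _, ⟨j, rfl⟩, rfl⟩
  obtain ⟨g', rfl⟩ := FV_range i hg
  refine ⟨g' * K.r j * g'⁻¹, ?_, ?_⟩
  · exact Subgroup.normalClosure_normal.conj_mem (K.r j)
      (Subgroup.subset_normalClosure (Set.mem_range_self j)) g'
  · rw [map_mul, map_mul, map_inv, i.comm]

lemma Un.v_mono' (h : Un K X u) : Monotone fun n => Set.range (u n).v :=
  monotone_nat_of_le_succ h.v_mono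

lemma Un.c_mono' (h : Un K X u) : Monotone fun n => Set.range (u n).c :=
  monotone_nat_of_le_succ h.c_mono

lemma finite_sub {A : Type} {S : ℕ → Set A} (hS : Monotone S) (hA : ∀ x, ∃ n, x ∈ S n) {T : Set A}
    (hT : T.Finite) : ∃ n, T ⊆ S n := by
  induction T, hT using Set.Finite.induction_on with
  | empty => exact ⟨0, Set.empty_subset _⟩
  | @insert a T _ _ ih =>
    obtain ⟨n, hn⟩ := ih
    obtain ⟨m, hm⟩ := hA a
    exact ⟨max n m, Set.insert_subset (hS (le_max_right n m) hm) (hn.trans (hS (le_max_left n m)))⟩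

lemma Un.range_mono (h : Un K X u) : Monotone fun n => (u n).map.range := by
  refine monotone_nat_of_le_succ fun n => ?_
  rintro _ ⟨x, rfl⟩
  obtain ⟨w, rfl⟩ := QuotientGroup.mk_surjective x
  have h1 : FreeGroup.map (u n).v w ∈ FV X (Set.range (u (n + 1)).v) := by
    refine FV_mono (h.v_mono n) ⟨FreeGroup.map (fun x => ⟨(u n).v x, x, rfl⟩) w, ?_⟩
    rw [FreeGroup.map.comp]
    rfl
  obtain ⟨w', hw'⟩ := FV_range (u (n + 1)) h1
  refine ⟨PresentedGroup.mk _ w', ?_⟩
  rw [sub_mk, hw']
  exact (sub_mk (u n) w).symm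

lemma Un.pi_all (h : Un K X u) (x : X.Pi) : ∃ n, x ∈ (u n).map.range := by
  obtain ⟨w, rfl⟩ := QuotientGroup.mk_surjective x
  obtain ⟨A, hA, hw⟩ := exists_supp (L := X) w
  obtain ⟨n, hn⟩ := finite_sub h.v_mono' h.v_all hA
  obtain ⟨w', hw'⟩ := FV_range (u n) (FV_mono hn hw)
  refine ⟨n, PresentedGroup.mk _ w', ?_⟩
  rw [sub_mk, hw']
  rfl

lemma Un.fg_range (h : Un K X u) {H : Subgroup X.Pi} (hH : H.FG) : ∃ n, H ≤ (u n).map.range := by
  obtain ⟨T, rfl⟩ := hH
  obtain ⟨n, hn⟩ := finite_sub (S := fun n => ((u n).map.range : Set X.Pi)) h.range_mono h.pi_all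
    T.finite_toSet
  exact ⟨n, (Subgroup.closure_le _).2 hn⟩

lemma bdry_comm {K L : Cx} (i : Sub K L) (x : K.R →₀ ℤ) :
    Finsupp.mapDomain i.v (K.bdry x) = L.bdry (Finsupp.mapDomain i.c x) := by
  have h1 : (Finsupp.lmapDomain ℤ ℤ i.v).comp K.bdry = L.bdry.comp (Finsupp.lmapDomain ℤ ℤ i.c) := by
    refine Finsupp.lhom_ext fun j z => ?_
    simp only [LinearMap.comp_apply, Cx.bdry, Finsupp.lmapDomain_apply, Finsupp.mapDomain_single,
      Finsupp.linearCombination_single, Finsupp.mapDomain_smul]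
    rw [← expSum_map, i.comm]
  exact LinearMap.congr_fun h1 x

lemma Un.bdry_inj (h : Un K X u) (hK : ∀ n, Injective (K n).bdry) : Injective X.bdry := by
  rw [injective_iff_map_eq_zero]
  intro x hx
  have h1 : ∀ x : X.R →₀ ℤ, ∃ (n : ℕ) (y : (K n).R →₀ ℤ), Finsupp.mapDomain (u n).c y = x := by
    intro x
    obtain ⟨n, hn⟩ := finite_sub h.c_mono' h.c_all x.support.finite_toSet
    refine ⟨n, Finsupp.comapDomain (u n).c x (u n).c.injective.injOn, ?_⟩
    exact Finsupp.mapDomain_comapDomain _ (u n).c.injective x hn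
  obtain ⟨n, y, rfl⟩ := h1 x
  rw [← bdry_comm] at hx
  have h2 : (K n).bdry y = 0 := Finsupp.mapDomain_injective (u n).v.injective (hx.trans
    Finsupp.mapDomain_zero.symm)
  rw [hK n (h2.trans (map_zero _).symm), Finsupp.mapDomain_zero]

theorem Un.inj (h : Un K X u) {j : ∀ n, Sub (K n) (K (n + 1))} (hc : Compat K j X u)
    (hj : ∀ n, Injective (j n).map) (n : ℕ) : Injective (u n).map := by
  have up : ∀ N, n ≤ N → ∃ i : Sub (K n) (K N), Injective i.map ∧
      ∀ v, (u N).v (i.v v) = (u n).v v := by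
    intro N h
    induction N, h using Nat.le_induction with
    | base =>
      refine ⟨⟨Function.Embedding.refl _, Function.Embedding.refl _, fun c => FreeGroup.map.id _⟩,
        ?_, fun _ => rfl⟩
      intro x y hxy
      have : ∀ x : (K n).Pi, Sub.map ⟨Function.Embedding.refl _, Function.Embedding.refl _,
          fun c => FreeGroup.map.id ((K n).r c)⟩ x = x := by
        intro x
        have h1 : Sub.map ⟨Function.Embedding.refl _, Function.Embedding.refl _,
            fun c => FreeGroup.map.id ((K n).r c)⟩ = MonoidHom.id _ :=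
          PresentedGroup.ext fun v => map_of _ v
        exact DFunLike.congr_fun h1 x
      rwa [this, this] at hxy
    | succ N _ ih =>
      obtain ⟨i, h1, h2⟩ := ih
      refine ⟨i.trans (j N), ?_, fun v => (hc.v N _).trans (h2 v)⟩
      rw [map_trans]
      exact (hj N).comp h1
  rw [injective_iff_map_eq_one]
  intro z hz
  obtain ⟨y, rfl⟩ := QuotientGroup.mk_surjective z
  have h1 : (PresentedGroup.mk _ (FreeGroup.map (u n).v y) : X.Pi) = 1 :=
    (sub_mk (u n) y).symm.trans hz
  have h2 : FreeGroup.map (u n).v y ∈ Subgroup.normalClosure (Set.range X.r) :=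
    (QuotientGroup.eq_one_iff _).1 h1
  obtain ⟨A, B, hA, hB, h3⟩ := exists_rel h2
  obtain ⟨N₁, hN₁⟩ := finite_sub h.v_mono' h.v_all hA
  obtain ⟨N₂, hN₂⟩ := finite_sub h.c_mono' h.c_all hB
  let N := max n (max N₁ N₂)
  have hN1 : N₁ ≤ N := (le_max_left _ _).trans (le_max_right _ _)
  have hN2 : N₂ ≤ N := (le_max_right _ _).trans (le_max_right _ _)
  obtain ⟨i, h4, h5⟩ := up N (le_max_left _ _)
  have h6 := NV_range (u N) (NV_mono (hN₁.trans (h.v_mono' hN1)) (hN₂.trans (h.c_mono' hN2)) h3)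
  obtain ⟨x, hx, hxy⟩ := h6
  have h7 : FreeGroup.map (u n).v y = FreeGroup.map (u N).v (FreeGroup.map i.v y) := by
    rw [FreeGroup.map.comp]
    congr 2
    funext v
    exact (h5 v).symm
  rw [h7] at hxy
  have h8 := map_inj (u N).v.injective hxy
  rw [h8] at hx
  apply h4
  rw [map_one]
  exact (sub_mk i y).trans ((QuotientGroup.eq_one_iff _).2 hx)

lemma Compat.map {j : ∀ n, Sub (K n) (K (n + 1))} (hc : Compat K j X u) (n : ℕ) (x : (K n).Pi) :
    (u (n + 1)).map ((j n).map x) = (u n).map x := by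
  have : (u (n + 1)).map.comp (j n).map = (u n).map := by
    refine PresentedGroup.ext fun v => ?_
    rw [MonoidHom.comp_apply, map_of, map_of, map_of, hc.v]
  exact DFunLike.congr_fun this x

end

/-- a complex whose fundamental group is perfect -/
lemma bdry_surj_of_perfect {L : Cx} (hL : commutator L.Pi = ⊤) : Surjective L.bdry := by
  rw [← LinearMap.range_eq_top, eq_top_iff]
  have key : ∀ v : L.V, Finsupp.single v (1 : ℤ) ∈ LinearMap.range L.bdry := by
    intro v
    let M := LinearMap.range L.bdry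
    let q : (L.V →₀ ℤ) →+ (L.V →₀ ℤ) ⧸ M := M.mkQ.toAddMonoidHom
    let f : FreeGroup L.V →* Multiplicative ((L.V →₀ ℤ) ⧸ M) :=
      (AddMonoidHom.toMultiplicative q).comp (expSum L.V)
    have hf : ∀ x ∈ Set.range L.r, FreeGroup.lift (fun v => f (FreeGroup.of v)) x = 1 := by
      rintro _ ⟨j, rfl⟩
      have : FreeGroup.lift (fun v => f (FreeGroup.of v)) = f := by
        ext1 v
        simp
      rw [this]
      change Multiplicative.ofAdd (M.mkQ (expSum L.V (L.r j)).toAdd) = 1
      have : M.mkQ (expSum L.V (L.r j)).toAdd = 0 := by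
        rw [Submodule.mkQ_apply, Submodule.Quotient.mk_eq_zero]
        refine ⟨Finsupp.single j 1, ?_⟩
        simp [Cx.bdry]
      rw [this]
      rfl
    have h0 : ∀ x : L.Pi, PresentedGroup.toGroup hf x = 1 := by
      intro x
      have hx : x ∈ commutator L.Pi := hL ▸ Subgroup.mem_top x
      have hle : commutator L.Pi ≤ (PresentedGroup.toGroup hf).ker :=
        Abelianization.commutator_subset_ker _
      exact hle hx
    have h1 := h0 (PresentedGroup.of v)
    rw [PresentedGroup.toGroup.of] at h1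
    have h2 : M.mkQ (expSum L.V (FreeGroup.of v)).toAdd = 0 := congrArg Multiplicative.toAdd h1
    rw [expSum_of, Submodule.mkQ_apply, Submodule.Quotient.mk_eq_zero] at h2
    exact h2
  intro x _
  induction x using Finsupp.induction_linear with
  | zero => exact Submodule.zero_mem _
  | add a b ha hb => exact Submodule.add_mem _ (ha trivial) (hb trivial)
  | single v z =>
    have : Finsupp.single v z = z • Finsupp.single v (1 : ℤ) := by simp
    rw [this]
    exact Submodule.smul_mem _ _ (key v)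

end Pool.Agent.W59S.US
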