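import Pool.Agent.W59S.US.Code
import Pool.Agent.W59S.US.Grp
import Pool.Agent.W59S.US.Union
import Pool.Agent.W5h69.PT.Q1

set_option autoImplicit false

/-!
The construction of simple groups which contain the fundamental groups of given subcomplexes of
contractible complexes.
-/

namespace Pool.Agent.W59S.US

open Function
open Pool.Agent.R655.LI
open scoped commutatorElement

/-- `L` has countably many cells. -/
def IsCt (L : Cx) : Prop := Countable L.V ∧ Countable L.R

/-- classes of countable complexes closed under the constructions -/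
structure Cls (P : Cx → Prop) : Prop where
  ct : ∀ L, P L → IsCt L
  big : ∀ (K L : Cx) (i : Sub K L) (w : FreeGroup K.V), P L → P (big i w)
  wedge : ∀ L₁ L₂, P L₁ → P L₂ → P (wedge L₁ L₂)
  fin : ∀ L, L.IsFin → P L

lemma cls_fin : Cls Cx.IsFin where
  ct L h := by
    have := h.1
    have := h.2
    exact ⟨inferInstance, inferInstance⟩
  big _ _ i w := big_fin i w
  wedge _ _ := wedge_fin
  fin _ h := h

lemma cls_ct : Cls IsCt where
  ct _ h := h
  big K L i w h := by
    have := h.1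
    have := h.2
    constructor
    · change Countable (L.V ⊕ (Lt (Out i) ⊕ Unit))
      infer_instance
    · change Countable (L.R ⊕ (Lt (Out i) ⊕ Unit))
      infer_instance
  wedge L₁ L₂ h₁ h₂ := by
    have := h₁.1
    have := h₁.2
    have := h₂.1
    have := h₂.2
    constructor
    · change Countable (L₁.V ⊕ L₂.V)
      infer_instance
    · change Countable (L₁.R ⊕ L₂.R)
      infer_instance
  fin L h := by
    have := h.1
    have := h.2
    exact ⟨inferInstance, inferInstance⟩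

section
variable {P : Cx → Prop} (hP : Cls P)
include hP

lemma single_P (K L : Cx) (i : Sub K L) (hL : L.Contractible) (hPL : P L) (h : K.Pi) (h1 : h ≠ 1) :
    ∃ (L' : Cx) (t : L'.V) (e : L'.R) (s : Sub K (L'.del e)), P L' ∧ Good K L L' t e s ∧
      Subgroup.normalClosure {s.map h} = commutator (L'.del e).Pi := by
  obtain ⟨w, rfl⟩ := QuotientGroup.mk_surjective h
  refine ⟨big i w, Sum.inr (Sum.inr ()), ee i w, subBig i w, hP.big K L i w hPL,
    good_big K L i hL w (phi_inj i w h1), ?_⟩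
  have : phi i w (PresentedGroup.mk _ w) = hh i w := phi_mk i w w
  refine Eq.trans ?_ (comm_eq i w hL).symm
  rw [← this, map_subBig]
  rfl

theorem finite_set_P (K L : Cx) (i : Sub K L) (hL : L.Contractible) (hPL : P L) (F : Set K.Pi)
    (hF : F.Finite) (h1 : (1 : K.Pi) ∉ F) :
    ∃ (L' : Cx) (t : L'.V) (e : L'.R) (s : Sub K (L'.del e)), P L' ∧ Good K L L' t e s ∧
      ∀ h ∈ F, Subgroup.normalClosure {s.map h} = commutator (L'.del e).Pi := by
  induction F, hF using Set.Finite.induction_on with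
  | empty =>
    by_cases hK : ∃ h : K.Pi, h ≠ 1
    · obtain ⟨h, hh⟩ := hK
      obtain ⟨L', t, e, s, hp, hG, _⟩ := single_P hP K L i hL hPL h hh
      exact ⟨L', t, e, s, hp, hG, fun h hh => absurd hh (Set.notMem_empty _)⟩
    · push Not at hK
      refine ⟨big i 1, Sum.inr (Sum.inr ()), ee i 1, subBig i 1, hP.big K L i 1 hPL,
        good_big K L i hL 1 ?_, fun h hh => absurd hh (Set.notMem_empty _)⟩
      intro a b _
      rw [hK a, hK b]
  | @insert a F _ _ ih =>
    obtain ⟨L₁, t₁, e₁, s₁, hp₁, ⟨g1, g2, g3, g4, g5, g6⟩, hN⟩ :=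
      ih (fun h => h1 (Set.mem_insert_of_mem _ h))
    have ha : s₁.map a ≠ 1 := fun h => h1 (Set.mem_insert_iff.2
      (Or.inl ((g4 (h.trans (map_one s₁.map).symm)).symm)))
    obtain ⟨L₂, t₂, e₂, s₂, hp₂, ⟨f1, f2, f3, f4, f5, f6⟩, hN₂⟩ :=
      single_P hP (L₁.del e₁) L₁ (delSub L₁ e₁) g1 hp₁ (s₁.map a) ha
    refine ⟨L₂, t₂, e₂, s₁.trans s₂, hp₂, ⟨f1, f2, fun h => f3 (g3 h), ?_, ?_, f6⟩, ?_⟩
    · rw [map_trans]; exact f4.comp g4
    · rw [map_trans]; exact fun k => f5 _
    intro h hh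
    rw [map_trans]
    rcases Set.mem_insert_iff.1 hh with rfl | hh
    · exact hN₂
    · refine le_antisymm ?_ ?_
      · refine Subgroup.normalClosure_le_normal ?_
        rintro x rfl
        exact f5 _
      · have k1 : commutator (L₁.del e₁).Pi ≤
            (Subgroup.normalClosure {s₂.map (s₁.map h)}).comap s₂.map := by
          rw [← hN h hh]
          refine Subgroup.normalClosure_le_normal ?_
          rintro x rfl
          exact Subgroup.subset_normalClosure rfl
        rw [← hN₂]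
        refine Subgroup.normalClosure_le_normal ?_
        rintro x rfl
        exact k1 (g5 a)

end

/-- A stage of the construction: a contractible complex `L` with a 2-cell `e` attached along
a 1-cell, and an enumeration of `π₁(L - e)`. -/
structure St (P : Cx → Prop) where
  L : Cx
  e : L.R
  one : OneCell L e
  prop : P L
  s : ℕ → (L.del e).Pi
  surj : Surjective s

/-- the complex `L - e` -/
abbrev St.K {P : Cx → Prop} (X : St P) : Cx := X.L.del X.e

lemma countable_pi (L : Cx) (h : IsCt L) : Countable L.Pi := by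
  have : Countable L.V := h.1
  have : Countable (FreeGroup L.V) := countable_free L.V
  exact QuotientGroup.mk_surjective.countable

lemma del_ct (L : Cx) (e : L.R) (h : IsCt L) : IsCt (L.del e) := by
  have := h.1
  have := h.2
  constructor
  · change Countable L.V
    infer_instance
  · change Countable {k : L.R // k ≠ e}
    infer_instance

/-- One step. -/
theorem step {P : Cx → Prop} (hP : Cls P) (m : ℕ) (X : St P) (c : Code) :
    ∃ (Y : St P) (φ : Sub X.K Y.K), Injective φ.map ∧ (∀ x, φ.map x ∈ commutator Y.K.Pi) ∧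
    (∀ k ≤ 4 ^ m, X.s k ≠ 1 → Subgroup.normalClosure {φ.map (X.s k)} = commutator Y.K.Pi) ∧
    (∀ k, Y.s (2 * k) = φ.map (X.s k)) ∧ ∃ ψ : Sub c.K Y.K, Injective ψ.map := by
  classical
  set L₂ := cxOf c.1.1 c.1.2.1 c.1.2.2.1 with hL₂
  let e₂ : L₂.R := c.1.2.2.2
  have hc : OneCell L₂ e₂ := c.2
  let K : Cx := wedge X.K (L₂.del e₂)
  let L : Cx := wedge X.L L₂
  have i : Sub K L := subWedge (delSub X.L X.e) (delSub L₂ e₂)
  have hL : L.Contractible := wedge_contractible X.one.1 hc.1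
  have hPL : P L := hP.wedge _ _ X.prop (hP.fin _ (cxOf_fin _ _ _))
  let a : X.K.Pi →* K.Pi := (sub₁ X.K (L₂.del e₂)).map
  have ha : Injective a := sub₁_inj _ _
  let F : Set K.Pi := {y | ∃ k ≤ 4 ^ m, X.s k ≠ 1 ∧ y = a (X.s k)}
  have hF : F.Finite := by
    refine ((Set.finite_Iic (4 ^ m)).image fun k => a (X.s k)).subset ?_
    rintro y ⟨k, hk, _, rfl⟩
    exact ⟨k, hk, rfl⟩
  have h1 : (1 : K.Pi) ∉ F := by
    rintro ⟨k, _, hk, h⟩
    exact hk (ha (h.symm.trans (map_one a).symm))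
  obtain ⟨L', t, e, s, hp', ⟨f1, f2, f3, f4, f5, f6⟩, hN⟩ := finite_set_P hP K L i hL hPL F hF h1
  have := countable_pi _ (del_ct L' e (hP.ct _ hp'))
  obtain ⟨g, hg⟩ := exists_surjective_nat (L'.del e).Pi
  have hφ : ∀ x, ((sub₁ X.K (L₂.del e₂)).trans s).map x = s.map (a x) := fun x => by
    rw [map_trans]
    rfl
  let s' : ℕ → (L'.del e).Pi := fun k => if k % 2 = 0 then s.map (a (X.s (k / 2))) else g (k / 2)
  refine ⟨⟨L', e, ⟨f1, t, f2⟩, hp', s', ?_⟩, (sub₁ _ _).trans s, ?_, fun x => ?_, ?_, ?_,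
    (sub₂ _ _).trans s, ?_⟩
  · intro y
    obtain ⟨k, rfl⟩ := hg y
    refine ⟨2 * k + 1, ?_⟩
    have h2 : (2 * k + 1) % 2 ≠ 0 := by omega
    have h3 : (2 * k + 1) / 2 = k := by omega
    simp only [s', if_neg h2, h3]
  · intro x y hxy
    rw [hφ, hφ] at hxy
    exact ha (f4 hxy)
  · rw [hφ]
    exact f5 _
  · intro k hk hk1
    rw [hφ]
    exact hN _ ⟨k, hk, hk1, rfl⟩
  · intro k
    have h2 : (2 * k) % 2 = 0 := by omega
    have h3 : (2 * k) / 2 = k := by omega
    rw [hφ]
    change s' (2 * k) = s.map (a (X.s k))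
    simp only [s', if_pos h2, h3]
  · rw [map_trans]
    exact f4.comp (sub₂_inj _ _)

/-- enumeration of the codes -/
noncomputable def codeSeq : ℕ → Code := (exists_surjective_nat Code).choose

lemma codeSeq_surj : Surjective codeSeq := (exists_surjective_nat Code).choose_spec

section
variable {P : Cx → Prop} (hP : Cls P) (X₀ : St P)

/-- the sequence of the stages -/
noncomputable def seq : ℕ → St P
  | 0 => X₀
  | n + 1 => (step hP n (seq n) (codeSeq n)).choose

/-- the inclusions -/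
noncomputable def ph (n : ℕ) : Sub (seq hP X₀ n).K (seq hP X₀ (n + 1)).K :=
  (step hP n (seq hP X₀ n) (codeSeq n)).choose_spec.choose

lemma ph_spec (n : ℕ) : Injective (ph hP X₀ n).map ∧
    (∀ x, (ph hP X₀ n).map x ∈ commutator (seq hP X₀ (n + 1)).K.Pi) ∧
    (∀ k ≤ 4 ^ n, (seq hP X₀ n).s k ≠ 1 →
      Subgroup.normalClosure {(ph hP X₀ n).map ((seq hP X₀ n).s k)} =
        commutator (seq hP X₀ (n + 1)).K.Pi) ∧
    (∀ k, (seq hP X₀ (n + 1)).s (2 * k) = (ph hP X₀ n).map ((seq hP X₀ n).s k)) ∧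
      ∃ ψ : Sub (codeSeq n).K (seq hP X₀ (n + 1)).K, Injective ψ.map :=
  (step hP n (seq hP X₀ n) (codeSeq n)).choose_spec.choose_spec

end

/-- `X` is a countable acyclic complex (`H₁ = H₂ = 0`) with simple fundamental group. It is the union
of an ascending sequence of `π₁`-injective subcomplexes `L n - e n`, where `L n` is a contractible
complex with the property `P` and `e n` is a 2-cell of `L n` attached along a 1-cell. -/
structure Tower (P : Cx → Prop) (X : Cx) : Prop where
  ct : IsCt X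
  acyclic : Bijective X.bdry
  simple : IsSimpleGroup X.Pi
  union : ∃ (L : ℕ → Cx) (e : ∀ n, (L n).R) (u : ∀ n, Sub ((L n).del (e n)) X),
    Un (fun n => (L n).del (e n)) X u ∧ ∀ n, OneCell (L n) (e n) ∧ P (L n) ∧ Injective (u n).map

/-- All subcomplexes of finite contractible complexes are `π₁`-injective subcomplexes of `X`. -/
def Univ (X : Cx) : Prop :=
  ∀ (K L : Cx) (_ : Sub K L), L.Contractible → L.IsFin → ∃ u : Sub K X, Injective u.map

/-- The construction. -/
theorem exists_tower {P : Cx → Prop} (hP : Cls P) (K₀ L₀ : Cx) (i₀ : Sub K₀ L₀)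
    (h₀ : L₀.Contractible) (hP₀ : P L₀) :
    ∃ X : Cx, Tower P X ∧ Univ X ∧ ∃ u : Sub K₀ X, Injective u.map := by
  obtain ⟨L₁, t₁, e₁, s₁, hP₁, ⟨f1, f2, f3, f4, f5, f6⟩, _⟩ :=
    finite_set_P hP K₀ L₀ i₀ h₀ hP₀ ∅ Set.finite_empty (Set.notMem_empty _)
  have hc0 := countable_pi _ (del_ct L₁ e₁ (hP.ct _ hP₁))
  obtain ⟨g, hg⟩ := exists_surjective_nat (L₁.del e₁).Pi
  let X₀ : St P := ⟨L₁, e₁, ⟨f1, t₁, f2⟩, hP₁, g, hg⟩
  obtain ⟨X, u, hc, hu⟩ := exists_union (fun n => (seq hP X₀ n).K) (ph hP X₀)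
  have hinj := hu.inj hc fun n => (ph_spec hP X₀ n).1
  have h3 : ∀ n x, (u (n + 1)).map ((ph hP X₀ n).map x) = (u n).map x := fun n x => hc.map n x
  have h4 : ∀ x : X.Pi, ∃ n y, (u n).map y = x := fun x => by
    obtain ⟨n, y, h⟩ := hu.pi_all x
    exact ⟨n, y, h⟩
  have hemb : Univ X := by
    intro K L i hL hf
    obtain ⟨L', t, e, s, ⟨f1, f2, f3, f4, f5, f6⟩, _⟩ :=
      finite_set K L i hL ∅ Set.finite_empty (Set.notMem_empty _)
    obtain ⟨c, f, hfi⟩ := exists_code L' e ⟨f1, t, f2⟩ (f3 hf)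
    obtain ⟨n, rfl⟩ := codeSeq_surj c
    obtain ⟨ψ, hψ⟩ := (ph_spec hP X₀ n).2.2.2.2
    refine ⟨((s.trans f).trans ψ).trans (u (n + 1)), ?_⟩
    rw [map_trans, map_trans, map_trans]
    exact (hinj _).comp (hψ.comp (hfi.comp f4))
  have hnt : Nontrivial X.Pi := by
    obtain ⟨f', hf⟩ := hemb (disc.del (0 : Fin 1)) disc (delSub _ _) disc_contractible
      (cxOf_fin _ _ _)
    set f := f'.map
    refine ⟨f (PresentedGroup.of (0 : Fin 1)), 1, fun h => ?_⟩
    have h0 := hf (h.trans (map_one f).symm)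
    let g : (disc.del (0 : Fin 1)).Pi →* Multiplicative ℤ :=
      PresentedGroup.toGroup (f := fun _ => Multiplicative.ofAdd (1 : ℤ)) (by
        rintro _ ⟨⟨j, hj⟩, rfl⟩
        exact absurd (Subsingleton.elim (α := Fin 1) j 0) hj)
    have h5 := congrArg g h0
    rw [map_one] at h5
    have h6 : g (PresentedGroup.of (0 : Fin 1)) = Multiplicative.ofAdd (1 : ℤ) :=
      PresentedGroup.toGroup.of _
    rw [h6] at h5
    have h7 : (1 : ℤ) = 0 := congrArg Multiplicative.toAdd h5
    exact one_ne_zero h7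
  have hsimple : IsSimpleGroup X.Pi :=
    simple_of_seq (fun n => (seq hP X₀ n).K.Pi) (fun n => (ph hP X₀ n).map)
      (fun n => (seq hP X₀ n).s)
      (fun n => (seq hP X₀ n).surj) (fun n k => (ph_spec hP X₀ n).2.2.2.1 k)
      (fun n x => (ph_spec hP X₀ n).2.1 x)
      (fun n k hk hk1 => (ph_spec hP X₀ n).2.2.1 k hk hk1) X.Pi (fun n => (u n).map) h3 h4
  have hperf : commutator X.Pi = ⊤ := by
    rw [eq_top_iff]
    intro x _
    obtain ⟨n, y, rfl⟩ := h4 x
    rw [← h3]
    have h5 := (ph_spec hP X₀ n).2.1 y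
    have h6 : (commutator (seq hP X₀ (n + 1)).K.Pi).map (u (n + 1)).map ≤ commutator X.Pi := by
      rw [commutator_def, commutator_def, Subgroup.map_commutator]
      exact Subgroup.commutator_mono le_top le_top
    exact h6 ⟨_, h5, rfl⟩
  have hct : ∀ n, IsCt (seq hP X₀ n).K := fun n => del_ct _ _ (hP.ct _ (seq hP X₀ n).prop)
  refine ⟨X, ⟨⟨?_, ?_⟩, ⟨hu.bdry_inj fun n => ?_, bdry_surj_of_perfect hperf⟩, hsimple,
    fun n => (seq hP X₀ n).L, fun n => (seq hP X₀ n).e, u, hu,
    fun n => ⟨(seq hP X₀ n).one, (seq hP X₀ n).prop, hinj n⟩⟩, hemb,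
    s₁.trans (u 0), ?_⟩
  · have : ∀ n, Countable (seq hP X₀ n).K.V := fun n => (hct n).1
    have hs : Surjective fun x : (Σ n, (seq hP X₀ n).K.V) => (u x.1).v x.2 := by
      intro x
      obtain ⟨n, y, h⟩ := hu.v_all x
      exact ⟨⟨n, y⟩, h⟩
    exact hs.countable
  · have : ∀ n, Countable (seq hP X₀ n).K.R := fun n => (hct n).2
    have hs : Surjective fun x : (Σ n, (seq hP X₀ n).K.R) => (u x.1).c x.2 := by
      intro x
      obtain ⟨n, y, h⟩ := hu.c_all x
      exact ⟨⟨n, y⟩, h⟩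
    exact hs.countable
  · exact bdry_sub (delSub _ _) (seq hP X₀ n).one.1.bdry_inj
  · have h9 : ∀ v : Sub (L₁.del e₁) X, Injective v.map → Injective (s₁.trans v).map := by
      intro v hv
      rw [map_trans]
      exact hv.comp f4
    exact h9 (u 0) (hinj 0)

end Pool.Agent.W59S.US
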