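import Pool.Agent.R655.LI.Main

set_option autoImplicit false

/-!
Wedges of complexes, isomorphic complexes, and the countable set of the finite complexes.
-/

namespace Pool.Agent.W59S.US

open Function
open Pool.Agent.R655.LI

/-- If the generators are trivial then the group is. -/
lemma pi_trivial {L : Cx} (h : ∀ v, (PresentedGroup.of v : L.Pi) = 1) (x : L.Pi) : x = 1 := by
  have : MonoidHom.id L.Pi = 1 := PresentedGroup.ext fun v => h v
  exact DFunLike.congr_fun this x

/-- the wedge of two complexes -/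
def wedge (L₁ L₂ : Cx) : Cx where
  V := L₁.V ⊕ L₂.V
  R := L₁.R ⊕ L₂.R
  r := Sum.elim (fun j => FreeGroup.map Sum.inl (L₁.r j)) (fun j => FreeGroup.map Sum.inr (L₂.r j))

/-- the first summand -/
def sub₁ (L₁ L₂ : Cx) : Sub L₁ (wedge L₁ L₂) where
  v := ⟨Sum.inl, Sum.inl_injective⟩
  c := ⟨Sum.inl, Sum.inl_injective⟩
  comm _ := rfl

/-- the second summand -/
def sub₂ (L₁ L₂ : Cx) : Sub L₂ (wedge L₁ L₂) where
  v := ⟨Sum.inr, Sum.inr_injective⟩
  c := ⟨Sum.inr, Sum.inr_injective⟩
  comm _ := rfl

lemma map_inl {A B C D : Type} (f : A → B) (g : C → D) (x : FreeGroup A) :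
    FreeGroup.map (Sum.map f g) (FreeGroup.map Sum.inl x) = FreeGroup.map Sum.inl (FreeGroup.map f x) := by
  rw [FreeGroup.map.comp, FreeGroup.map.comp]
  rfl

lemma map_inr {A B C D : Type} (f : A → B) (g : C → D) (x : FreeGroup C) :
    FreeGroup.map (Sum.map f g) (FreeGroup.map Sum.inr x) = FreeGroup.map Sum.inr (FreeGroup.map g x) := by
  rw [FreeGroup.map.comp, FreeGroup.map.comp]
  rfl

/-- the inclusion of wedges -/
def subWedge {K₁ L₁ K₂ L₂ : Cx} (i : Sub K₁ L₁) (j : Sub K₂ L₂) :
    Sub (wedge K₁ K₂) (wedge L₁ L₂) where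
  v := i.v.sumMap j.v
  c := i.c.sumMap j.c
  comm k := by
    rcases k with k | k
    · exact (map_inl i.v j.v (K₁.r k)).trans (congrArg (FreeGroup.map Sum.inl) (i.comm k))
    · exact (map_inr i.v j.v (K₂.r k)).trans (congrArg (FreeGroup.map Sum.inr) (j.comm k))

lemma sub₁_inj (L₁ L₂ : Cx) : Injective (sub₁ L₁ L₂).map := by
  let ρ : (wedge L₁ L₂).Pi →* L₁.Pi := PresentedGroup.toGroup
    (f := Sum.elim (fun v => PresentedGroup.of v) (fun _ => 1)) (by
      rintro _ ⟨j | j, rfl⟩
      · have : (FreeGroup.lift (Sum.elim (fun v => (PresentedGroup.of v : L₁.Pi)) fun _ : L₂.V => 1)).comp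
            (FreeGroup.map Sum.inl) = PresentedGroup.mk (Set.range L₁.r) := by
          ext v
          simp [PresentedGroup.of]
        exact (DFunLike.congr_fun this (L₁.r j)).trans (PresentedGroup.one_of_mem ⟨j, rfl⟩)
      · have : (FreeGroup.lift (Sum.elim (fun v => (PresentedGroup.of v : L₁.Pi)) fun _ : L₂.V => 1)).comp
            (FreeGroup.map Sum.inr) = 1 := by
          ext v
          simp
        exact DFunLike.congr_fun this (L₂.r j))
  have h : ρ.comp (sub₁ L₁ L₂).map = MonoidHom.id _ := by
    refine PresentedGroup.ext fun v => ?_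
    rw [MonoidHom.comp_apply, map_of]
    exact PresentedGroup.toGroup.of _
  intro x y hxy
  have := congrArg ρ hxy
  rwa [← MonoidHom.comp_apply, ← MonoidHom.comp_apply, h] at this

lemma sub₂_inj (L₁ L₂ : Cx) : Injective (sub₂ L₁ L₂).map := by
  let ρ : (wedge L₁ L₂).Pi →* L₂.Pi := PresentedGroup.toGroup
    (f := Sum.elim (fun _ => 1) (fun v => PresentedGroup.of v)) (by
      rintro _ ⟨j | j, rfl⟩
      · have : (FreeGroup.lift (Sum.elim (fun _ : L₁.V => 1) fun v => (PresentedGroup.of v : L₂.Pi))).comp
            (FreeGroup.map Sum.inl) = 1 := by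
          ext v
          simp
        exact DFunLike.congr_fun this (L₁.r j)
      · have : (FreeGroup.lift (Sum.elim (fun _ : L₁.V => 1) fun v => (PresentedGroup.of v : L₂.Pi))).comp
            (FreeGroup.map Sum.inr) = PresentedGroup.mk (Set.range L₂.r) := by
          ext v
          simp [PresentedGroup.of]
        exact (DFunLike.congr_fun this (L₂.r j)).trans (PresentedGroup.one_of_mem ⟨j, rfl⟩))
  have h : ρ.comp (sub₂ L₁ L₂).map = MonoidHom.id _ := by
    refine PresentedGroup.ext fun v => ?_
    rw [MonoidHom.comp_apply, map_of]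
    exact PresentedGroup.toGroup.of _
  intro x y hxy
  have := congrArg ρ hxy
  rwa [← MonoidHom.comp_apply, ← MonoidHom.comp_apply, h] at this

/-- exponent sums and renaming of letters -/
lemma expSum_map {V W : Type} (f : V → W) (x : FreeGroup V) :
    (expSum W (FreeGroup.map f x)).toAdd = Finsupp.mapDomain f (expSum V x).toAdd := by
  have : (expSum W).comp (FreeGroup.map f) =
      (AddMonoidHom.toMultiplicative (Finsupp.mapDomain.addMonoidHom f)).comp (expSum V) := by
    ext v
    simp [expSum]
  exact congrArg Multiplicative.toAdd (DFunLike.congr_fun this x)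

lemma inj_block2 {V W R Q : Type} (c : R → (V →₀ ℤ)) (d : Q → (W →₀ ℤ))
    (hc : Injective (Finsupp.linearCombination ℤ c)) (hd : Injective (Finsupp.linearCombination ℤ d))
    (e : R ⊕ Q → ((V ⊕ W) →₀ ℤ)) (c1 : ∀ j, e (Sum.inl j) = Finsupp.mapDomain Sum.inl (c j))
    (c2 : ∀ j, e (Sum.inr j) = Finsupp.mapDomain Sum.inr (d j)) :
    Injective (Finsupp.linearCombination ℤ e) := by
  have e1 : (Finsupp.lcomapDomain (M := ℤ) (R := ℤ) (Sum.inl : V → V ⊕ W)
      Sum.inl_injective).comp (Finsupp.linearCombination ℤ e) = (Finsupp.linearCombination ℤ c).comp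
      (Finsupp.lcomapDomain (M := ℤ) (R := ℤ) (Sum.inl : R → R ⊕ Q) Sum.inl_injective) := by
    refine Finsupp.lhom_ext fun k z => ?_
    rcases k with j | j
    · have : Finsupp.comapDomain (Sum.inl : R → R ⊕ Q) (Finsupp.single (Sum.inl j) z)
          Sum.inl_injective.injOn = Finsupp.single j z :=
        Finsupp.comapDomain_single _ _ _ _
      simp only [LinearMap.comp_apply, Finsupp.linearCombination_single, c1, map_smul,
        Finsupp.lcomapDomain_apply]
      rw [this, Finsupp.linearCombination_single, Finsupp.comapDomain_mapDomain _ Sum.inl_injective]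
    · have : Finsupp.comapDomain (Sum.inl : R → R ⊕ Q) (Finsupp.single (Sum.inr j) z)
          Sum.inl_injective.injOn = 0 := by
        ext x; simp
      have h' : Finsupp.comapDomain (Sum.inl : V → V ⊕ W)
          (Finsupp.mapDomain Sum.inr (d j)) Sum.inl_injective.injOn = 0 := by
        ext x
        rw [Finsupp.comapDomain_apply, Finsupp.mapDomain_of_notMem_range _ _ (by simp)]
        rfl
      simp only [LinearMap.comp_apply, Finsupp.linearCombination_single, c2, map_smul,
        Finsupp.lcomapDomain_apply]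
      rw [this, h', smul_zero, map_zero]
  have e2 : (Finsupp.lcomapDomain (M := ℤ) (R := ℤ) (Sum.inr : W → V ⊕ W)
      Sum.inr_injective).comp (Finsupp.linearCombination ℤ e) = (Finsupp.linearCombination ℤ d).comp
      (Finsupp.lcomapDomain (M := ℤ) (R := ℤ) (Sum.inr : Q → R ⊕ Q) Sum.inr_injective) := by
    refine Finsupp.lhom_ext fun k z => ?_
    rcases k with j | j
    · have : Finsupp.comapDomain (Sum.inr : Q → R ⊕ Q) (Finsupp.single (Sum.inl j) z)
          Sum.inr_injective.injOn = 0 := by
        ext x; simp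
      have h' : Finsupp.comapDomain (Sum.inr : W → V ⊕ W)
          (Finsupp.mapDomain Sum.inl (c j)) Sum.inr_injective.injOn = 0 := by
        ext x
        rw [Finsupp.comapDomain_apply, Finsupp.mapDomain_of_notMem_range _ _ (by simp)]
        rfl
      simp only [LinearMap.comp_apply, Finsupp.linearCombination_single, c1, map_smul,
        Finsupp.lcomapDomain_apply]
      rw [this, h', smul_zero, map_zero]
    · have : Finsupp.comapDomain (Sum.inr : Q → R ⊕ Q) (Finsupp.single (Sum.inr j) z)
          Sum.inr_injective.injOn = Finsupp.single j z :=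
        Finsupp.comapDomain_single _ _ _ _
      simp only [LinearMap.comp_apply, Finsupp.linearCombination_single, c2, map_smul,
        Finsupp.lcomapDomain_apply]
      rw [this, Finsupp.linearCombination_single, Finsupp.comapDomain_mapDomain _ Sum.inr_injective]
  rw [injective_iff_map_eq_zero] at hc hd ⊢
  intro x hx
  have f1 := congrArg (fun l => l x) e1
  have f2 := congrArg (fun l => l x) e2
  simp only [LinearMap.comp_apply, hx, map_zero] at f1 f2
  have f3 := hc _ f1.symm
  have f4 := hd _ f2.symm
  ext k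
  rcases k with j | j
  · exact DFunLike.congr_fun f3 j
  · exact DFunLike.congr_fun f4 j

lemma wedge_bdry {L₁ L₂ : Cx} (h₁ : Injective L₁.bdry) (h₂ : Injective L₂.bdry) :
    Injective (wedge L₁ L₂).bdry :=
  inj_block2 _ _ h₁ h₂ _ (fun _ => expSum_map _ _) (fun _ => expSum_map _ _)

lemma wedge_contractible {L₁ L₂ : Cx} (h₁ : L₁.Contractible) (h₂ : L₂.Contractible) :
    (wedge L₁ L₂).Contractible := by
  refine ⟨pi_trivial fun v => ?_, wedge_bdry h₁.bdry_inj h₂.bdry_inj⟩
  rcases v with v | v
  · have := congrArg (sub₁ L₁ L₂).map (h₁.pi_eq_one (PresentedGroup.of v))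
    rw [map_of, map_one] at this
    exact this
  · have := congrArg (sub₂ L₁ L₂).map (h₂.pi_eq_one (PresentedGroup.of v))
    rw [map_of, map_one] at this
    exact this

lemma wedge_fin {L₁ L₂ : Cx} (h₁ : L₁.IsFin) (h₂ : L₂.IsFin) : (wedge L₁ L₂).IsFin := by
  have := h₁.1
  have := h₁.2
  have := h₂.1
  have := h₂.2
  constructor
  · change Finite (L₁.V ⊕ L₂.V)
    infer_instance
  · change Finite (L₁.R ⊕ L₂.R)
    infer_instance

end Pool.Agent.W59S.US
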